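import Pool.Agent.Q241.FP.A

/-! # Counterexamples with large positive Fourier coefficients -/

namespace Q241.FP

open MeasureTheory Set

theorem volume_prob : IsProbabilityMeasure (volume : Measure TT) := by
  constructor
  have := AddCircle.measure_univ (1 : ℝ)
  rw [ENNReal.ofReal_one] at this
  exact this

/-- The atomless invariant probability measures. -/
structure Ok (S : Finset ℕ) (μ : Measure TT) : Prop where
  prob : IsProbabilityMeasure μ
  inv : Inv S μ
  atomless : ∀ x, μ {x} = 0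

/-- All Fourier coefficients are nonnegative real numbers. -/
def Pos (μ : Measure TT) : Prop := ∀ n : ℤ, (c μ n).im = 0 ∧ 0 ≤ (c μ n).re

theorem Ok.exists_coeff {S : Finset ℕ} {μ : Measure TT} (h : Ok S μ) (hne : μ ≠ volume) :
    ∃ n : ℕ, 0 < n ∧ c μ n ≠ 0 := by
  have := h.prob
  have := volume_prob
  by_contra hcon
  push Not at hcon
  apply hne
  apply fourier_ext
  intro n
  rcases lt_trichotomy n 0 with hn | hn | hn
  · obtain ⟨k, hk⟩ : ∃ k : ℕ, n = -(k : ℤ) := ⟨n.natAbs, by omega⟩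
    have hk1 : 0 < k := by omega
    rw [hk, c_neg, hcon k hk1, c_neg, c, integral_fourier (k : ℤ) (by omega)]
  · rw [hn, c_zero, c_zero]
  · obtain ⟨k, hk⟩ : ∃ k : ℕ, n = (k : ℤ) := ⟨n.natAbs, by omega⟩
    have hk1 : 0 < k := by omega
    rw [hk, hcon k hk1, c, integral_fourier (k : ℤ) (by omega)]

theorem Ok.sq {S : Finset ℕ} {μ : Measure TT} (h : Ok S μ) : Ok S (sq μ) := by
  have := h.prob
  refine ⟨inferInstance, ?_, sq_atomless h.atomless⟩
  rw [inv_iff]
  intro s hs n
  rw [c_sq, c_sq, (inv_iff S μ).mp h.inv s hs n]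

theorem sq_pos (μ : Measure TT) [IsProbabilityMeasure μ] : Pos (sq μ) := by
  intro n
  rw [c_sq]
  exact ⟨Complex.ofReal_im _, by rw [Complex.ofReal_re]; positivity⟩

theorem Ok.dil {S : Finset ℕ} {μ : Measure TT} (h : Ok S μ) {m : ℕ} (hm : 0 < m) :
    Ok S (dil m μ) := by
  have := h.prob
  refine ⟨inferInstance, ?_, dil_atomless hm h.atomless⟩
  rw [inv_iff]
  intro s hs n
  rw [c_dil, c_dil, show ((m : ℤ) * (s * n)) = s * (m * n) by ring,
    (inv_iff S μ).mp h.inv s hs]

theorem Ok.lift {S : Finset ℕ} {μ : Measure TT} (h : Ok S μ) {d : ℕ} (hd : 0 < d)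
    (hco : ∀ s ∈ S, Nat.Coprime d s) : Ok S (lift d μ) := by
  have := h.prob
  have hp := lift_prob hd μ
  refine ⟨hp, ?_, lift_atomless h.atomless hd⟩
  rw [inv_iff]
  intro s hs n
  by_cases hn : (d : ℤ) ∣ n
  · obtain ⟨k, rfl⟩ := hn
    rw [show ((s : ℤ) * (d * k)) = d * (s * k) by ring, c_lift_dvd hd, c_lift_dvd hd,
      (inv_iff S μ).mp h.inv s hs]
  · rw [c_lift_not_dvd hd _ hn, c_lift_not_dvd hd]
    intro h1
    apply hn
    have h2 : IsCoprime (d : ℤ) (s : ℤ) := Nat.isCoprime_iff_coprime.mpr (hco s hs)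
    exact h2.dvd_of_dvd_mul_left h1

theorem Pos.dil {μ : Measure TT} (h : Pos μ) (m : ℕ) : Pos (dil m μ) := by
  intro n
  rw [c_dil]
  exact h _

theorem Pos.lift {μ : Measure TT} [IsProbabilityMeasure μ] (h : Pos μ) {d : ℕ} (hd : 0 < d) :
    Pos (lift d μ) := by
  intro n
  by_cases hn : (d : ℤ) ∣ n
  · obtain ⟨k, rfl⟩ := hn
    rw [c_lift_dvd hd]
    exact h _
  · rw [c_lift_not_dvd hd _ hn]
    simp

theorem inv_pow {S : Finset ℕ} {μ : Measure TT} [IsProbabilityMeasure μ] (h : Inv S μ) (k : ℕ)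
    (n : ℤ) : c μ (((∏ s ∈ S, s) ^ k : ℕ) * n) = c μ n := by
  have h1 : ∀ T : Finset ℕ, T ⊆ S → ∀ n : ℤ, c μ (((∏ s ∈ T, s) : ℕ) * n) = c μ n := by
    classical
    intro T
    induction T using Finset.induction_on with
    | empty => intro _ n; simp
    | insert a T ha ih =>
      intro hT n
      rw [Finset.prod_insert ha]
      push_cast
      rw [mul_assoc, (inv_iff S μ).mp h a (hT (Finset.mem_insert_self _ _))]
      have := ih (fun y hy => hT (Finset.mem_insert_of_mem hy)) n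
      push_cast at this
      exact this
  induction k with
  | zero => simp
  | succ k ih =>
    have := h1 S (Finset.Subset.refl _) (((∏ s ∈ S, s) ^ k : ℕ) * n)
    rw [← ih, ← this]
    congr 1
    push_cast
    ring

/-- The splitting of `n` into a part dividing a power of `P` and a part coprime to `P`. -/
theorem split (P n : ℕ) (hn : 0 < n) :
    ∃ d s : ℕ, 0 < d ∧ 0 < s ∧ n = d * s ∧ Nat.Coprime d P ∧ s ∣ P ^ n := by
  have hs0 : 0 < Nat.gcd n (P ^ n) := Nat.gcd_pos_of_pos_left _ hn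
  obtain ⟨d, hd⟩ := Nat.gcd_dvd_left n (P ^ n)
  have hd0 : 0 < d := by
    rcases Nat.eq_zero_or_pos d with h | h
    · rw [h, mul_zero] at hd; omega
    · exact h
  refine ⟨d, Nat.gcd n (P ^ n), hd0, hs0, by rw [mul_comm]; exact hd, ?_, Nat.gcd_dvd_right _ _⟩
  rw [Nat.coprime_iff_gcd_eq_one]
  by_contra hne
  obtain ⟨r, hr, hrd⟩ := Nat.exists_prime_and_dvd hne
  have h1 : r ∣ d := hrd.trans (Nat.gcd_dvd_left _ _)
  have h2 : r ∣ P := hrd.trans (Nat.gcd_dvd_right _ _)
  -- every power of `r` dividing `n` divides the gcd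
  set k := n.factorization r with hk
  have hkn : k ≤ n := by
    have : k < n := Nat.factorization_lt r hn.ne'
    omega
  have h3 : r ^ k ∣ Nat.gcd n (P ^ n) := by
    apply Nat.dvd_gcd (Nat.ordProj_dvd n r)
    exact (pow_dvd_pow_of_dvd h2 k).trans (pow_dvd_pow P hkn)
  have h4 : r ^ (k + 1) ∣ n := by
    rw [hd, pow_succ]
    exact mul_dvd_mul h3 h1
  exact Nat.pow_succ_factorization_not_dvd hn.ne' hr h4

/-- For each frequency a counterexample with a fixed positive coefficient there. -/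
theorem exists_at {S : Finset ℕ} (hS : ∀ s ∈ S, 1 ≤ s) {μ : Measure TT} (h : Ok S μ) (hp : Pos μ)
    {n₀ : ℕ} (hn₀ : 0 < n₀) (n : ℕ) (hn : 0 < n) :
    ∃ ν : Measure TT, Ok S ν ∧ Pos ν ∧ c ν n = c μ n₀ := by
  have := h.prob
  set P : ℕ := ∏ s ∈ S, s with hP
  have hP0 : 0 < P := Finset.prod_pos (fun s hs => hS s hs)
  obtain ⟨d, s, hd, hs, hds, hco, t, ht⟩ := split P n hn
  have ht0 : 0 < t := by
    rcases Nat.eq_zero_or_pos t with h | h
    · rw [h, mul_zero] at ht
      have := pow_pos hP0 n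
      omega
    · exact h
  have hm : 0 < n₀ * t := Nat.mul_pos hn₀ ht0
  have h1 := h.dil hm
  have := h1.prob
  refine ⟨lift d (dil (n₀ * t) μ), h1.lift hd ?_, (hp.dil _).lift hd, ?_⟩
  · intro u hu
    exact Nat.Coprime.coprime_dvd_right (Finset.dvd_prod_of_mem _ hu) hco
  · rw [hds]
    push_cast
    rw [c_lift_dvd hd, c_dil]
    have h2 := inv_pow h.inv n (n₀ : ℤ)
    rw [← h2, ← hP, ht]
    congr 1
    push_cast
    ring

/-- Countable mixtures. -/
theorem exists_mixture {S : Finset ℕ} {ν : ℕ → Measure TT} (h : ∀ n, Ok S (ν n))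
    (hp : ∀ n, Pos (ν n)) {δ : ℝ} (hδ : 0 < δ) (hc : ∀ n : ℕ, δ ≤ (c (ν n) ((n + 1 : ℕ) : ℤ)).re)
    {a : ℕ → ℝ} (ha : ∀ n, 0 < a n) (hsum : Summable a) :
    ∃ μ : Measure TT, Ok S μ ∧ Pos μ ∧ ∃ κ : ℝ, 0 < κ ∧ ∀ n : ℕ, 1 ≤ n → κ * a n ≤ (c μ n).re := by
  have hsum' : Summable (fun n => a (n + 1)) := (summable_nat_add_iff 1).mpr hsum
  set A : ℝ := ∑' n, a (n + 1) with hA
  have hA0 : 0 < A := hsum'.tsum_pos (fun n => (ha _).le) 0 (ha _)
  set w : ℕ → ℝ := fun n => a (n + 1) / A with hw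
  have hw0 : ∀ n, 0 < w n := fun n => div_pos (ha _) hA0
  have hwsum : Summable w := hsum'.div_const A
  have hw1 : ∑' n, w n = 1 := by
    rw [hw, tsum_div_const, ← hA, div_self hA0.ne']
  set μ : Measure TT := Measure.sum (fun n => ENNReal.ofReal (w n) • ν n) with hμ
  have hνp : ∀ n, IsProbabilityMeasure (ν n) := fun n => (h n).prob
  have hprob : IsProbabilityMeasure μ := by
    constructor
    rw [hμ, Measure.sum_apply _ MeasurableSet.univ]
    have h1 : ∀ n, (ENNReal.ofReal (w n) • ν n) univ = ENNReal.ofReal (w n) := by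
      intro n
      rw [Measure.smul_apply, measure_univ, smul_eq_mul, mul_one]
    simp only [h1]
    rw [← ENNReal.ofReal_tsum_of_nonneg (fun n => (hw0 n).le) hwsum, hw1, ENNReal.ofReal_one]
  have hcoef : ∀ n : ℤ, HasSum (fun k => (w k : ℂ) * c (ν k) n) (c μ n) := by
    intro n
    have h1 := hasSum_integral_measure (integrable_fourier n μ)
    have h2 : (fun k => ∫ x, (fourier n x : ℂ) ∂(ENNReal.ofReal (w k) • ν k)) =
        fun k => (w k : ℂ) * c (ν k) n := by
      funext k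
      rw [integral_smul_measure, ENNReal.toReal_ofReal (hw0 k).le, Complex.real_smul]
      rfl
    rw [← h2]
    exact h1
  have hre : ∀ n : ℤ, HasSum (fun k => w k * (c (ν k) n).re) (c μ n).re := by
    intro n
    have := Complex.hasSum_re (hcoef n)
    simpa using this
  have him : ∀ n : ℤ, (c μ n).im = 0 := by
    intro n
    have h1 := Complex.hasSum_im (hcoef n)
    have h2 : (fun k => ((w k : ℂ) * c (ν k) n).im) = fun _ => 0 := by
      funext k
      simp [(hp k n).1]
    rw [h2] at h1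
    exact h1.unique hasSum_zero
  refine ⟨μ, ⟨hprob, ?_, ?_⟩, ?_, δ / A, div_pos hδ hA0, ?_⟩
  · rw [inv_iff]
    intro s hs n
    have h1 := hcoef (s * n)
    have h2 := hcoef n
    have h3 : (fun k => (w k : ℂ) * c (ν k) (s * n)) = fun k => (w k : ℂ) * c (ν k) n := by
      funext k
      rw [(inv_iff S (ν k)).mp (h k).inv s hs n]
    rw [h3] at h1
    exact h1.unique h2
  · intro x
    rw [hμ, Measure.sum_apply _ (measurableSet_singleton x)]
    have h1 : ∀ n, (ENNReal.ofReal (w n) • ν n) {x} = 0 := by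
      intro n
      rw [Measure.smul_apply, (h n).atomless x, smul_zero]
    simp only [h1, tsum_zero]
  · intro n
    refine ⟨him n, ?_⟩
    exact (hre n).nonneg (fun k => mul_nonneg (hw0 k).le (hp k n).2)
  · intro n hn
    obtain ⟨m, rfl⟩ : ∃ m, n = m + 1 := ⟨n - 1, by omega⟩
    have h1 := (hre ((m + 1 : ℕ) : ℤ))
    have h2 : w m * (c (ν m) ((m + 1 : ℕ) : ℤ)).re ≤ (c μ ((m + 1 : ℕ) : ℤ)).re :=
      le_hasSum h1 m (fun k _ => mul_nonneg (hw0 k).le (hp k _).2)
    refine le_trans ?_ h2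
    have h3 : δ / A * a (m + 1) = w m * δ := by
      rw [hw]; ring
    rw [h3]
    exact mul_le_mul_of_nonneg_left (hc m) (hw0 m).le

/-- The singular part of a counterexample. -/
theorem exists_singular {S : Finset ℕ} (hS : ∀ s ∈ S, 1 ≤ s) (h2 : ∃ s ∈ S, 2 ≤ s)
    {μ : Measure TT} (h : Ok S μ) (hp : Pos μ) (hne : μ ≠ volume) :
    ∃ ν : Measure TT, Ok S ν ∧ Pos ν ∧ Measure.MutuallySingular ν volume ∧
      ∀ n : ℤ, n ≠ 0 → (c μ n).re ≤ (c ν n).re := by
  have := h.prob
  have hvol : ∀ s ∈ S, MeasurePreserving (fun x : TT => s • x) volume volume := by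
    intro s hs
    have h1 := hS s hs
    rcases Nat.eq_or_lt_of_le h1 with h3 | h3
    · have h4 : (fun x : TT => s • x) = id := by
        funext x
        rw [← h3, one_smul]
        rfl
      rw [h4]
      exact MeasurePreserving.id (volume : Measure TT)
    · exact (AddCircle.ergodic_nsmul (T := 1) h3).toMeasurePreserving
  obtain ⟨s₀, hs₀, hs₀2⟩ := h2
  set μs : Measure TT := μ.singularPart volume with hμs
  set μa : Measure TT := volume.withDensity (μ.rnDeriv volume) with hμa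
  have hdec : μs + μa = μ := μ.singularPart_add_rnDeriv volume
  have hfs : IsFiniteMeasure μs := inferInstance
  have hfa : IsFiniteMeasure μa := inferInstance
  have hinvs : ∀ s ∈ S, MeasurePreserving (fun x : TT => s • x) μs μs := fun s hs =>
    MeasurePreserving.singularPart (h.inv s hs) (hvol s hs)
  have hinva : MeasurePreserving (fun x : TT => s₀ • x) μa μa :=
    MeasurePreserving.withDensity_rnDeriv (h.inv s₀ hs₀) (hvol s₀ hs₀)
  have hac : μa.AbsolutelyContinuous volume := withDensity_absolutelyContinuous _ _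
  obtain ⟨r, hr⟩ := (AddCircle.ergodic_nsmul (T := 1) (by omega : 1 < s₀)).eq_smul_of_absolutelyContinuous
    hinva hac
  have hca : ∀ n : ℤ, n ≠ 0 → c μa n = 0 := by
    intro n hn
    rw [c, hr, integral_smul_measure, integral_fourier n hn, smul_zero]
  have hcs : ∀ n : ℤ, n ≠ 0 → c μs n = c μ n := by
    intro n hn
    have h1 : c μ n = c μs n + c μa n := by
      rw [c, c, c, ← integral_add_measure (integrable_fourier n μs) (integrable_fourier n μa), hdec]
    rw [h1, hca n hn, add_zero]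
  -- the mass of the singular part
  obtain ⟨n₀, hn₀, hn₀c⟩ := h.exists_coeff hne
  have hmass : μs univ ≠ 0 := by
    intro h0
    apply hn₀c
    rw [← hcs n₀ (by omega), c, Measure.measure_univ_eq_zero.mp h0, integral_zero_measure]
  have hmass1 : μs univ ≤ 1 := by
    have : μs univ ≤ μ univ := by
      rw [← hdec, Measure.add_apply]
      exact le_self_add
    exact this.trans (le_of_eq h.prob.measure_univ)
  have hmtop : μs univ ≠ ⊤ := measure_ne_top _ _
  set M : ENNReal := (μs univ)⁻¹ with hM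
  have hM1 : 1 ≤ M.toReal := by
    rw [hM, ENNReal.toReal_inv]
    apply (one_le_inv₀ (ENNReal.toReal_pos hmass hmtop)).mpr
    have h5 := ENNReal.toReal_mono ENNReal.one_ne_top hmass1
    rwa [ENNReal.toReal_one] at h5
  have hMtop : M ≠ ⊤ := ENNReal.inv_ne_top.mpr hmass
  have hprob : IsProbabilityMeasure (M • μs) := by
    constructor
    rw [Measure.smul_apply, smul_eq_mul, hM, ENNReal.inv_mul_cancel hmass hmtop]
  have hc : ∀ n : ℤ, n ≠ 0 → c (M • μs) n = (M.toReal : ℂ) * c μ n := by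
    intro n hn
    rw [c, integral_smul_measure, Complex.real_smul]
    show (M.toReal : ℂ) * c μs n = _
    rw [hcs n hn]
  refine ⟨M • μs, ⟨hprob, ?_, ?_⟩, ?_, ?_, ?_⟩
  · intro s hs
    exact (hinvs s hs).smul_measure M
  · intro x
    have h1 : μs {x} ≤ μ {x} := by
      rw [← hdec, Measure.add_apply]
      exact le_self_add
    rw [h.atomless x] at h1
    rw [Measure.smul_apply, nonpos_iff_eq_zero.mp h1, smul_zero]
  · intro n
    by_cases hn : n = 0
    · rw [hn, c_zero]
      simp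
    · rw [hc n hn]
      refine ⟨?_, ?_⟩
      · simp [(hp n).1]
      · rw [Complex.re_ofReal_mul]
        exact mul_nonneg ENNReal.toReal_nonneg (hp n).2
  · exact (Measure.mutuallySingular_singularPart μ volume).smul M
  · intro n hn
    rw [hc n hn, Complex.re_ofReal_mul]
    have := (hp n).2
    nlinarith

/-- The main construction. -/
theorem main {S : Finset ℕ} (hS : ∀ s ∈ S, 1 ≤ s) (h2 : ∃ s ∈ S, 2 ≤ s) {a : ℕ → ℝ}
    (ha : ∀ n, 0 < a n) (hsum : Summable a) {μ : Measure TT} (h : Ok S μ) (hne : μ ≠ volume) :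
    ∃ ν : Measure TT, Ok S ν ∧ Pos ν ∧ Measure.MutuallySingular ν volume ∧
      ∃ κ : ℝ, 0 < κ ∧ ∀ n : ℕ, 1 ≤ n → κ * a n ≤ (c ν n).re := by
  have := h.prob
  obtain ⟨n₀, hn₀, hn₀c⟩ := h.exists_coeff hne
  have hsq := h.sq
  have hsqp := sq_pos μ
  have hval : 0 < (c (FP.sq μ) n₀).re := by
    rw [c_sq, Complex.ofReal_re]
    have : 0 < ‖c μ n₀‖ := norm_pos_iff.mpr hn₀c
    positivity
  have hex : ∀ n : ℕ, ∃ ν : Measure TT, Ok S ν ∧ Pos ν ∧
      c ν ((n + 1 : ℕ) : ℤ) = c (FP.sq μ) n₀ := fun n =>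
    exists_at hS hsq hsqp hn₀ (n + 1) (Nat.succ_pos n)
  choose ν hν1 hν2 hν3 using hex
  obtain ⟨ρ, hρ1, hρ2, κ, hκ, hρ3⟩ := exists_mixture hν1 hν2 hval
    (fun n => by rw [hν3 n]) ha hsum
  have hρne : ρ ≠ volume := by
    intro h0
    have h1 := hρ3 1 le_rfl
    rw [h0, c, integral_fourier _ (by norm_num)] at h1
    have := mul_pos hκ (ha 1)
    simp only [Complex.zero_re] at h1
    linarith
  obtain ⟨σ, hσ1, hσ2, hσ3, hσ4⟩ := exists_singular hS h2 hρ1 hρ2 hρne
  refine ⟨σ, hσ1, hσ2, hσ3, κ, hκ, fun n hn => (hρ3 n hn).trans (hσ4 n (by omega))⟩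

end Q241.FP
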