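import Mathlib

/-! # Fourier coefficients of measures on the circle: convolution, dilation, lifting -/

namespace Q241.FP

open MeasureTheory Set

/-- The circle. -/
abbrev TT := UnitAddCircle

/-- The Fourier coefficient (with the sign of the problem file `∫ e(n x)`). -/
noncomputable def c (μ : Measure TT) (n : ℤ) : ℂ := ∫ x, (fourier n x : ℂ) ∂μ

theorem integrable_fourier (n : ℤ) (μ : Measure TT) [IsFiniteMeasure μ] :
    Integrable (fun x => (fourier n x : ℂ)) μ :=
  (BoundedContinuousFunction.mkOfCompact (fourier n)).integrable μ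

theorem measurable_fourier (n : ℤ) : Measurable (fun x : TT => (fourier n x : ℂ)) :=
  (fourier n).continuous.measurable

theorem integral_fourier (n : ℤ) (hn : n ≠ 0) : ∫ x : TT, (fourier n x : ℂ) = 0 := by
  have h1 := integral_add_right_eq_self (μ := (volume : Measure TT)) (fun x : TT => (fourier n x : ℂ))
    (((1 / 2 / n : ℝ)) : TT)
  have h2 : ∀ x : TT, (fourier n (x + (((1 / 2 / n : ℝ)) : TT)) : ℂ) = - fourier n x := by
    intro x
    exact fourier_add_half_inv_index hn one_pos x
  simp_rw [h2] at h1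
  rw [integral_neg] at h1
  have h3 : (2 : ℂ) * ∫ x : TT, fourier n x = 0 := by linear_combination (-1 : ℂ) * h1
  rcases mul_eq_zero.mp h3 with h | h
  · norm_num at h
  · exact h

/-- uniqueness of measures on the circle from Fourier coefficients -/
theorem fourier_ext (ρ ρ' : Measure TT) [IsFiniteMeasure ρ] [IsFiniteMeasure ρ']
    (h : ∀ n : ℤ, c ρ n = c ρ' n) : ρ = ρ' := by
  have hint : ∀ (g : C(TT, ℂ)) (m : Measure TT) [IsFiniteMeasure m], Integrable (fun x => g x) m := by
    intro g m _
    exact (BoundedContinuousFunction.mkOfCompact g).integrable m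
  have hlin : ∀ (m : Measure TT) [IsFiniteMeasure m], Continuous (fun g : C(TT, ℂ) => ∫ x, g x ∂m) := by
    intro m _
    have : ∀ g g' : C(TT, ℂ), dist (∫ x, g x ∂m) (∫ x, g' x ∂m) ≤ (m.real univ) * dist g g' := by
      intro g g'
      rw [dist_eq_norm, ← integral_sub (hint g m) (hint g' m)]
      refine le_trans (norm_integral_le_of_norm_le_const (C := dist g g') ?_) ?_
      · apply Filter.Eventually.of_forall
        intro x
        rw [← dist_eq_norm]
        exact ContinuousMap.dist_apply_le_dist x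
      · rw [mul_comm]
    apply (LipschitzWith.of_dist_le_mul (K := (m.real univ).toNNReal) ?_).continuous
    intro g g'
    rw [Real.coe_toNNReal _ measureReal_nonneg]
    exact this g g'
  have hall : ∀ g : C(TT, ℂ), ∫ x, g x ∂ρ = ∫ x, g x ∂ρ' := by
    intro g
    have hclosed : IsClosed {g : C(TT, ℂ) | ∫ x, g x ∂ρ = ∫ x, g x ∂ρ'} :=
      isClosed_eq (hlin ρ) (hlin ρ')
    have hspan : (Submodule.span ℂ (Set.range (fourier (T := 1))) : Set C(TT, ℂ)) ⊆
        {g : C(TT, ℂ) | ∫ x, g x ∂ρ = ∫ x, g x ∂ρ'} := by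
      intro g hg
      induction hg using Submodule.span_induction with
      | mem x hx => obtain ⟨n, rfl⟩ := hx; exact h n
      | zero => simp
      | add x y _ _ hx hy =>
        show ∫ t, x t + y t ∂ρ = ∫ t, x t + y t ∂ρ'
        rw [integral_add (hint x ρ) (hint y ρ), integral_add (hint x ρ') (hint y ρ')]
        rw [show ∫ t, x t ∂ρ = ∫ t, x t ∂ρ' from hx, show ∫ t, y t ∂ρ = ∫ t, y t ∂ρ' from hy]
      | smul c x _ hx =>
        show ∫ t, c * x t ∂ρ = ∫ t, c * x t ∂ρ'
        rw [integral_const_mul, integral_const_mul]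
        rw [show ∫ t, x t ∂ρ = ∫ t, x t ∂ρ' from hx]
    have hg : g ∈ (Submodule.span ℂ (Set.range (fourier (T := 1)))).topologicalClosure := by
      rw [span_fourier_closure_eq_top]; trivial
    exact closure_minimal hspan hclosed hg
  apply ext_of_forall_integral_eq_of_IsFiniteMeasure
  intro f
  let g : C(TT, ℂ) := ⟨fun x => (f x : ℂ), Complex.continuous_ofReal.comp f.continuous⟩
  have h1 := hall g
  have h2 : ∀ m : Measure TT, ∫ x, g x ∂m = ((∫ x, f x ∂m : ℝ) : ℂ) := by
    intro m
    exact integral_ofReal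
  rw [h2, h2] at h1
  exact_mod_cast h1

theorem c_zero (μ : Measure TT) [IsProbabilityMeasure μ] : c μ 0 = 1 := by
  simp [c]

theorem c_neg (μ : Measure TT) (n : ℤ) : c μ (-n) = (starRingEnd ℂ) (c μ n) := by
  rw [c, c, ← integral_conj]
  apply integral_congr_ae
  filter_upwards with x
  exact fourier_neg

/-- Dilation. -/
noncomputable def dil (m : ℕ) (μ : Measure TT) : Measure TT := μ.map (fun x : TT => m • x)

theorem measurable_nsmul (m : ℕ) : Measurable (fun x : TT => m • x) :=
  (continuous_nsmul m).measurable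

instance (m : ℕ) (μ : Measure TT) [IsProbabilityMeasure μ] : IsProbabilityMeasure (dil m μ) :=
  Measure.isProbabilityMeasure_map (measurable_nsmul m).aemeasurable

theorem fourier_nsmul (m : ℕ) (n : ℤ) (x : TT) : (fourier n (m • x) : ℂ) = fourier (m * n) x := by
  rw [fourier_apply, fourier_apply]
  congr 2
  rw [mul_comm, mul_smul, natCast_zsmul]

theorem c_dil (m : ℕ) (μ : Measure TT) (n : ℤ) : c (dil m μ) n = c μ (m * n) := by
  rw [c, dil, integral_map (measurable_nsmul m).aemeasurable
    (measurable_fourier n).aestronglyMeasurable, c]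
  simp only [fourier_nsmul]

theorem dil_atomless {m : ℕ} (hm : 0 < m) {μ : Measure TT} (hμ : ∀ x, μ {x} = 0) (y : TT) :
    dil m μ {y} = 0 := by
  rw [dil, Measure.map_apply (measurable_nsmul m) (measurableSet_singleton y)]
  have hfin : ((fun x : TT => m • x) ⁻¹' {y}).Finite := by
    by_cases h : ∃ x0 : TT, m • x0 = y
    · obtain ⟨x0, hx0⟩ := h
      have h1 : {u : TT | m • u = 0}.Finite := AddCircle.finite_torsion 1 hm
      refine (h1.image (fun u => u + x0)).subset ?_
      intro x hx
      refine ⟨x - x0, ?_, sub_add_cancel x x0⟩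
      have hx' : m • x = y := hx
      show m • (x - x0) = 0
      rw [nsmul_sub, hx', hx0, sub_self]
    · have : (fun x : TT => m • x) ⁻¹' {y} = ∅ := by
        ext x
        constructor
        · intro hx; exact (h ⟨x, hx⟩).elim
        · intro hx; exact hx.elim
      rw [this]
      exact finite_empty
  have : NullSingletonClass μ := ⟨fun x => hμ x⟩
  exact hfin.measure_zero μ

/-- The convolution with the reflected measure. -/
noncomputable def sq (μ : Measure TT) : Measure TT := (μ.prod μ).map (fun p : TT × TT => p.1 - p.2)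

theorem measurable_diff : Measurable (fun p : TT × TT => p.1 - p.2) :=
  (continuous_fst.sub continuous_snd).measurable

instance (μ : Measure TT) [IsProbabilityMeasure μ] : IsProbabilityMeasure (sq μ) :=
  Measure.isProbabilityMeasure_map measurable_diff.aemeasurable

theorem c_sq (μ : Measure TT) [IsProbabilityMeasure μ] (n : ℤ) :
    c (sq μ) n = ((‖c μ n‖ ^ 2 : ℝ) : ℂ) := by
  rw [c, sq, integral_map measurable_diff.aemeasurable
    (measurable_fourier n).aestronglyMeasurable]
  have h1 : ∀ p : TT × TT, (fourier n (p.1 - p.2) : ℂ) = fourier n p.1 * fourier (-n) p.2 := by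
    intro p
    rw [sub_eq_add_neg, fourier_apply, fourier_apply, fourier_apply, smul_add,
      AddCircle.toCircle_add, smul_neg, neg_smul]
    simp
  simp only [h1]
  rw [integral_prod_mul (fun x : TT => (fourier n x : ℂ)) (fun x : TT => (fourier (-n) x : ℂ))]
  show c μ n * c μ (-n) = _
  rw [c_neg, Complex.mul_conj, Complex.normSq_eq_norm_sq]

theorem sq_atomless {μ : Measure TT} [IsProbabilityMeasure μ] (hμ : ∀ x, μ {x} = 0) (y : TT) :
    sq μ {y} = 0 := by
  rw [sq, Measure.map_apply measurable_diff (measurableSet_singleton y)]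
  rw [Measure.prod_apply (measurable_diff (measurableSet_singleton y))]
  have h1 : ∀ x : TT, μ (Prod.mk x ⁻¹' ((fun p : TT × TT => p.1 - p.2) ⁻¹' {y})) = 0 := by
    intro x
    have : Prod.mk x ⁻¹' ((fun p : TT × TT => p.1 - p.2) ⁻¹' {y}) = {x - y} := by
      ext z
      simp only [mem_preimage, mem_singleton_iff]
      constructor
      · intro h; rw [← h]; abel
      · intro h; rw [h]; abel
    rw [this]
    exact hμ _
  simp only [h1, lintegral_zero]

/-- Invariance under a finite set of multiplications. -/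
def Inv (S : Finset ℕ) (μ : Measure TT) : Prop :=
  ∀ s ∈ S, MeasurePreserving (fun x : TT => s • x) μ μ

theorem inv_iff (S : Finset ℕ) (μ : Measure TT) [IsFiniteMeasure μ] :
    Inv S μ ↔ ∀ s ∈ S, ∀ n : ℤ, c μ (s * n) = c μ n := by
  constructor
  · intro h s hs n
    rw [← c_dil]
    have := (h s hs).map_eq
    rw [dil, this]
  · intro h s hs
    refine ⟨measurable_nsmul s, ?_⟩
    have hfin : IsFiniteMeasure (μ.map (fun x : TT => s • x)) := inferInstance
    apply fourier_ext
    intro n
    have := c_dil s μ n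
    rw [dil] at this
    rw [this, h s hs n]

/-- A measurable section of multiplication by `d`. -/
noncomputable def sec (d : ℕ) (x : TT) : TT :=
  ((((AddCircle.measurableEquivIco 1 0 x : Ico (0 : ℝ) (0 + 1)) : ℝ) / d : ℝ) : TT)

theorem measurable_sec (d : ℕ) : Measurable (sec d) := by
  unfold sec
  refine (AddCircle.measurable_mk' (a := (1 : ℝ))).comp ?_
  exact (measurable_subtype_coe.comp (AddCircle.measurableEquivIco 1 0).measurable).div_const _

theorem nsmul_sec {d : ℕ} (hd : 0 < d) (x : TT) : d • sec d x = x := by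
  have hd' : (d : ℝ) ≠ 0 := by positivity
  rw [sec, ← AddCircle.coe_nsmul, nsmul_eq_mul, mul_div_cancel₀ _ hd']
  exact (AddCircle.measurableEquivIco 1 0).symm_apply_apply x

/-- Lifting a measure along multiplication by `d`. -/
noncomputable def lift (d : ℕ) (μ : Measure TT) : Measure TT :=
  (d : ENNReal)⁻¹ • ∑ j ∈ Finset.range d, μ.map (fun x => sec d x + (((j : ℝ) / d : ℝ) : TT))

theorem measurable_sec_add (d : ℕ) (t : TT) : Measurable (fun x => sec d x + t) :=
  (measurable_sec d).add_const t

theorem lift_prob {d : ℕ} (hd : 0 < d) (μ : Measure TT) [IsProbabilityMeasure μ] :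
    IsProbabilityMeasure (lift d μ) := by
  constructor
  rw [lift, Measure.smul_apply, Measure.coe_finsetSum, Finset.sum_apply]
  have : ∀ j ∈ Finset.range d, (μ.map (fun x => sec d x + (((j : ℝ) / d : ℝ) : TT))) univ = 1 := by
    intro j _
    rw [Measure.map_apply (measurable_sec_add d _) MeasurableSet.univ, preimage_univ, measure_univ]
  rw [Finset.sum_congr rfl this]
  simp only [Finset.sum_const, Finset.card_range, nsmul_eq_mul, mul_one, smul_eq_mul]
  exact ENNReal.inv_mul_cancel (by exact_mod_cast hd.ne') (ENNReal.natCast_ne_top d)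

theorem lift_atomless {d : ℕ} {μ : Measure TT} (hμ : ∀ x, μ {x} = 0) (hd : 0 < d)
    (y : TT) : lift d μ {y} = 0 := by
  rw [lift, Measure.smul_apply, Measure.coe_finsetSum, Finset.sum_apply]
  have : ∀ j ∈ Finset.range d, (μ.map (fun x => sec d x + (((j : ℝ) / d : ℝ) : TT))) {y} = 0 := by
    intro j _
    rw [Measure.map_apply (measurable_sec_add d _) (measurableSet_singleton y)]
    have hsub : (fun x => sec d x + (((j : ℝ) / d : ℝ) : TT)) ⁻¹' {y} ⊆
        {d • (y - (((j : ℝ) / d : ℝ) : TT))} := by
      intro x hx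
      have hx' : sec d x + (((j : ℝ) / d : ℝ) : TT) = y := hx
      rw [mem_singleton_iff, ← hx', add_sub_cancel_right, nsmul_sec hd]
    exact measure_mono_null hsub (hμ _)
  rw [Finset.sum_congr rfl this]
  simp

theorem fourier_add' (n : ℤ) (x y : TT) :
    (fourier n (x + y) : ℂ) = fourier n x * fourier n y := by
  rw [fourier_apply, fourier_apply, fourier_apply, smul_add, AddCircle.toCircle_add]
  simp

theorem c_sum_lift (d : ℕ) (μ : Measure TT) [IsProbabilityMeasure μ] (n : ℤ) :
    c (lift d μ) n = (d : ℂ)⁻¹ * ((∑ j ∈ Finset.range d, (fourier n (((j : ℝ) / d : ℝ) : TT) : ℂ)) *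
      ∫ x, (fourier n (sec d x) : ℂ) ∂μ) := by
  rw [c, lift, integral_smul_measure, integral_finsetSum_measure]
  · have h1 : ∀ j ∈ Finset.range d,
        ∫ x, (fourier n x : ℂ) ∂(μ.map (fun x => sec d x + (((j : ℝ) / d : ℝ) : TT)))
        = (fourier n (((j : ℝ) / d : ℝ) : TT) : ℂ) * ∫ x, (fourier n (sec d x) : ℂ) ∂μ := by
      intro j _
      rw [integral_map (measurable_sec_add d _).aemeasurable
        (measurable_fourier n).aestronglyMeasurable]
      simp only [fourier_add']
      rw [integral_mul_const, mul_comm]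
    rw [Finset.sum_congr rfl h1, ← Finset.sum_mul]
    rw [ENNReal.toReal_inv, ENNReal.toReal_natCast, Complex.real_smul]
    push_cast
    rfl
  · intro j _
    have : IsProbabilityMeasure (μ.map (fun x => sec d x + (((j : ℝ) / d : ℝ) : TT))) :=
      Measure.isProbabilityMeasure_map (measurable_sec_add d _).aemeasurable
    exact integrable_fourier n _

theorem c_lift_dvd {d : ℕ} (hd : 0 < d) (μ : Measure TT) [IsProbabilityMeasure μ] (k : ℤ) :
    c (lift d μ) (d * k) = c μ k := by
  rw [c_sum_lift]
  have hd' : (d : ℝ) ≠ 0 := by positivity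
  have h1 : ∀ j ∈ Finset.range d, (fourier (d * k : ℤ) (((j : ℝ) / d : ℝ) : TT) : ℂ) = 1 := by
    intro j _
    rw [← fourier_nsmul, ← AddCircle.coe_nsmul, nsmul_eq_mul, mul_div_cancel₀ _ hd']
    have h2 : (((j : ℕ) : ℝ) : TT) = 0 := by
      have := AddCircle.coe_eq_zero_iff (p := (1 : ℝ)) (x := (j : ℝ))
      rw [this]
      exact ⟨j, by simp⟩
    rw [h2]
    simp
  rw [Finset.sum_congr rfl h1]
  have h3 : ∀ x : TT, (fourier (d * k : ℤ) (sec d x) : ℂ) = fourier k x := by
    intro x
    rw [← fourier_nsmul, nsmul_sec hd]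
  simp only [h3, Finset.sum_const, Finset.card_range, nsmul_eq_mul, mul_one]
  have hd'' : (d : ℂ) ≠ 0 := by exact_mod_cast hd.ne'
  rw [← mul_assoc, inv_mul_cancel₀ hd'', one_mul]
  rfl

theorem c_lift_not_dvd {d : ℕ} (hd : 0 < d) (μ : Measure TT) [IsProbabilityMeasure μ] {n : ℤ}
    (hn : ¬ (d : ℤ) ∣ n) : c (lift d μ) n = 0 := by
  rw [c_sum_lift]
  have hd' : (d : ℝ) ≠ 0 := by positivity
  have hdc : (d : ℂ) ≠ 0 := by exact_mod_cast hd.ne'
  set ω : ℂ := fourier n (((1 : ℝ) / d : ℝ) : TT) with hω
  have h1 : ∀ j : ℕ, (fourier n (((j : ℝ) / d : ℝ) : TT) : ℂ) = ω ^ j := by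
    intro j
    induction j with
    | zero => simp
    | succ j ih =>
      have : (((((j + 1 : ℕ) : ℝ) / d : ℝ)) : TT) = (((j : ℝ) / d : ℝ) : TT) +
          (((1 : ℝ) / d : ℝ) : TT) := by
        rw [← AddCircle.coe_add]
        congr 1
        push_cast
        ring
      rw [this, fourier_add', ih, pow_succ]
  have h2 : ω ^ d = 1 := by
    rw [← h1 d, div_self hd']
    have h2 : ((1 : ℝ) : TT) = 0 := AddCircle.coe_period 1
    rw [h2]
    simp
  have h3 : ω ≠ 1 := by
    intro h
    apply hn
    rw [hω, fourier_coe_apply, Complex.exp_eq_one_iff] at h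
    obtain ⟨m, hm⟩ := h
    refine ⟨m, ?_⟩
    have hpi : (2 * Real.pi * Complex.I : ℂ) ≠ 0 := Complex.two_pi_I_ne_zero
    have h4 : (n : ℂ) / d = m := by
      apply mul_left_cancel₀ hpi
      rw [mul_comm _ (m : ℂ), ← hm]
      push_cast
      field_simp
    rw [div_eq_iff hdc] at h4
    have h5 : n = m * d := by exact_mod_cast h4
    rw [h5, mul_comm]
  have h4 : ∑ j ∈ Finset.range d, (fourier n (((j : ℝ) / d : ℝ) : TT) : ℂ) = 0 := by
    simp only [h1]
    have h5 := geom_sum_mul ω d
    rw [h2, sub_self] at h5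
    rcases mul_eq_zero.mp h5 with h6 | h6
    · exact h6
    · exact absurd (sub_eq_zero.mp h6) h3
  rw [h4]
  simp

end Q241.FP
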