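import Pool.Agent.Q241.FP.Num
import Pool.Agent.Q117.HH.E
import Pool.Agent.Results.MP_e6aa12_ag.EveryNumberOfPoints

set_option autoImplicit false

/-!
# Collisions: many numbers of points at once
-/

namespace Pool.Agent.Q241.FP

universe u

/-- reduction to squarefree numbers, target zero -/
theorem red {R : ℕ} {δ : ℝ} (hδ : 0 < δ) {m : ℕ} (h : ∀ k : ℕ, 2 ≤ k → k ≤ R → Squarefree k →
    ∃ e : ℤ, |√(k : ℝ) * (2 * m + 1) - 0 - 2 * e| < δ / (R + 1)) {r : ℕ} (hr0 : 1 ≤ r) (hr : r ≤ R)
    (hsq : ¬ IsSquare r) : ∃ e : ℤ, |√(r : ℝ) * (2 * m + 1) - 2 * e| < δ := by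
  obtain ⟨k, a, hka, hk⟩ := Nat.sq_mul_squarefree r
  have ha : 1 ≤ a := by
    rcases Nat.eq_zero_or_pos a with h | h
    · rw [h] at hka
      simp at hka
      omega
    · exact h
  have hk0 : 1 ≤ k := Nat.pos_of_ne_zero hk.ne_zero
  have hk2 : 2 ≤ k := by
    by_contra hcon
    have : k = 1 := by omega
    apply hsq
    rw [← hka, this, mul_one, pow_two]
    exact ⟨a, rfl⟩
  have hkr : k ≤ r := by
    rw [← hka]
    exact Nat.le_mul_of_pos_left k (by positivity)
  have har : a ≤ r := by
    rw [← hka]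
    calc a ≤ a ^ 2 := Nat.le_self_pow (by norm_num) a
      _ ≤ a ^ 2 * k := Nat.le_mul_of_pos_right _ hk0
  obtain ⟨e, he⟩ := h k hk2 (hkr.trans hr) hk
  refine ⟨a * e, ?_⟩
  have hsr : √(r : ℝ) = a * √(k : ℝ) := by
    rw [← hka]
    push_cast
    rw [Real.sqrt_mul (by positivity), Real.sqrt_sq (by positivity)]
  have e1 : √(r : ℝ) * (2 * m + 1) - 2 * ((a * e : ℤ) : ℝ) =
      a * (√(k : ℝ) * (2 * m + 1) - 0 - 2 * e) := by
    rw [hsr]
    push_cast
    ring
  rw [e1, abs_mul, abs_of_nonneg (show (0 : ℝ) ≤ a by positivity)]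
  have haR : (a : ℝ) < R + 1 := by
    have : a < R + 1 := by omega
    exact_mod_cast this
  have h0 : 0 < δ / (R + 1) := by positivity
  calc (a : ℝ) * |√(k : ℝ) * (2 * m + 1) - 0 - 2 * e| ≤ a * (δ / (R + 1)) :=
        mul_le_mul_of_nonneg_left he.le (by positivity)
    _ < (R + 1) * (δ / (R + 1)) := mul_lt_mul_of_pos_right haR h0
    _ = δ := by field_simp

/-- the targets -/
def tg (k : ℕ) : ℚ :=
  if k = 2 then 2 / 29 else if k = 3 then 1 / 19 else if k = 5 then 1 / 11 else if k = 6 ∨ k = 7 then 1 / 10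
  else if k = 10 ∨ k = 11 then 1 / 12 else if k ≤ 15 then 0 else 1 / 5

/-- `m` is close to the targets -/
def Near (m : ℕ) : Prop := ∀ k : ℕ, 2 ≤ k → k ≤ 49 → Squarefree k →
  ∃ e : ℤ, |√(k : ℝ) * (2 * m + 1) - ((tg k : ℚ) : ℝ) - 2 * e| < 1 / 400

theorem sqf {k : ℕ} (h0 : 0 < k) (h : k < 49) (h4 : ¬ 4 ∣ k) (h9 : ¬ 9 ∣ k) (h25 : ¬ 25 ∣ k) :
    Squarefree k := by
  intro x hx
  have h1 : x * x ≤ k := Nat.le_of_dvd h0 hx
  have h2 : x ≤ 6 := by
    by_contra hcon
    have : 7 * 7 ≤ x * x := Nat.mul_le_mul (by omega) (by omega)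
    omega
  interval_cases x
  · omega
  · exact isUnit_one
  · exact absurd hx h4
  · exact absurd hx h9
  · omega
  · exact absurd hx h25
  · omega

theorem win_of_near {r m : ℕ} {θ δ : ℝ} (e : ℤ) (h : |√(r : ℝ) * (2 * m + 1) - θ - 2 * e| < δ)
    (h1 : wa r - 1 + δ ≤ θ) (h2 : θ ≤ 1 - wb r - δ) : Win r m := by
  obtain ⟨k1, k2⟩ := abs_lt.1 h
  intro d
  have hd : (2 * (d : ℤ) + 3 ≤ 2 * e - 1) ∨ (2 * e + 1 ≤ 2 * (d : ℤ) + 3) := by omega
  rcases hd with hd | hd
  · left
    have hd' : (2 * (d : ℝ) + 3 ≤ 2 * e - 1) := by exact_mod_cast hd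
    linarith
  · right
    have hd' : (2 * (e : ℝ) + 1 ≤ 2 * (d : ℝ) + 3) := by exact_mod_cast hd
    linarith

theorem cover {m : ℕ} (h : Near m) {r : ℕ} (a k : ℕ) (sl su t : ℚ) (hr : a ^ 2 * k = r) (h2 : 2 ≤ k)
    (hk : k ≤ 49) (sq : Squarefree k) (ht : tg k = t) (h1 : 0 < sl) (hsl : sl ^ 2 ≤ r)
    (hsu : (r : ℚ) ≤ su ^ 2) (h8 : 0 < su)
    (hA : su - 3 ≤ a * t + 1 - a / 400 ∨ 2 / 3 + 9 / (4 * sl) ≤ a * t + 1 - a / 400)
    (hB : su - 3 ≤ 1 - a / 400 - a * t ∨ 2 / 3 + 1 / (4 * sl) ≤ 1 - a / 400 - a * t) : Win r m := by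
  obtain ⟨e, he⟩ := h k h2 hk sq
  rw [ht] at he
  have c1 : (0 : ℝ) < sl := by exact_mod_cast h1
  have c2 : (sl : ℝ) ^ 2 ≤ r := by exact_mod_cast hsl
  have c3 : (r : ℝ) ≤ (su : ℝ) ^ 2 := by exact_mod_cast hsu
  have c8 : (0 : ℝ) < su := by exact_mod_cast h8
  have s1 : (sl : ℝ) ≤ √(r : ℝ) := Real.le_sqrt_of_sq_le c2
  have s2 : √(r : ℝ) ≤ su := Real.sqrt_le_iff.2 ⟨c8.le, c3⟩
  have hs : 0 < √(r : ℝ) := lt_of_lt_of_le c1 s1
  have ha : 1 ≤ a := by
    rcases Nat.eq_zero_or_pos a with h | h
    · rw [h] at hr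
      have : r = 0 := by rw [← hr]; ring
      rw [this] at hs
      simp at hs
    · exact h
  have hwa : wa r ≤ a * (t : ℝ) + 1 - a / 400 := by
    rcases hA with h | h
    · have h' : ((su - 3 : ℚ) : ℝ) ≤ ((a * t + 1 - a / 400 : ℚ) : ℝ) := Rat.cast_le.2 h
      push_cast at h'
      exact (min_le_left _ _).trans (by linarith)
    · have h' : ((2 / 3 + 9 / (4 * sl) : ℚ) : ℝ) ≤ ((a * t + 1 - a / 400 : ℚ) : ℝ) := Rat.cast_le.2 h
      push_cast at h'
      refine (min_le_right _ _).trans (le_trans ?_ h')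
      gcongr
  have hwb : wb r ≤ 1 - a / 400 - a * (t : ℝ) := by
    rcases hB with h | h
    · have h' : ((su - 3 : ℚ) : ℝ) ≤ ((1 - a / 400 - a * t : ℚ) : ℝ) := Rat.cast_le.2 h
      push_cast at h'
      exact (min_le_left _ _).trans (by linarith)
    · have h' : ((2 / 3 + 1 / (4 * sl) : ℚ) : ℝ) ≤ ((1 - a / 400 - a * t : ℚ) : ℝ) := Rat.cast_le.2 h
      push_cast at h'
      refine (min_le_right _ _).trans (le_trans ?_ h')
      gcongr
  have hsr : √(r : ℝ) = a * √(k : ℝ) := by
    rw [← hr]
    push_cast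
    rw [Real.sqrt_mul (by positivity), Real.sqrt_sq (by positivity)]
  have haR : (0 : ℝ) < a := by exact_mod_cast ha
  refine win_of_near (θ := a * t) (δ := a / 400) (a * e) ?_ (by linarith) (by linarith)
  have e1 : √(r : ℝ) * (2 * m + 1) - a * (t : ℝ) - 2 * ((a * e : ℤ) : ℝ) =
      a * (√(k : ℝ) * (2 * m + 1) - t - 2 * e) := by
    rw [hsr]
    push_cast
    ring
  rw [e1, abs_mul, abs_of_pos haR]
  calc (a : ℝ) * |√(k : ℝ) * (2 * m + 1) - (t : ℝ) - 2 * e| < a * (1 / 400) :=
        mul_lt_mul_of_pos_left he haR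
    _ = a / 400 := by ring

theorem c10 {m : ℕ} (h : Near m) : Win 10 m :=
  cover h 1 10 (15811 / 5000) (31623 / 10000) (1 / 12) (by norm_num) (by norm_num) (by norm_num) (sqf (by norm_num) (by norm_num)
    (by norm_num) (by norm_num) (by norm_num)) (by norm_num [tg]) (by norm_num) (by norm_num) (by norm_num)
    (by norm_num) (Or.inl (by norm_num)) (Or.inl (by norm_num))

theorem c11 {m : ℕ} (h : Near m) : Win 11 m :=
  cover h 1 11 (16583 / 5000) (33167 / 10000) (1 / 12) (by norm_num) (by norm_num) (by norm_num) (sqf (by norm_num) (by norm_num)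
    (by norm_num) (by norm_num) (by norm_num)) (by norm_num [tg]) (by norm_num) (by norm_num) (by norm_num)
    (by norm_num) (Or.inl (by norm_num)) (Or.inl (by norm_num))

theorem c12 {m : ℕ} (h : Near m) : Win 12 m :=
  cover h 2 3 (34641 / 10000) (17321 / 5000) (1 / 19) (by norm_num) (by norm_num) (by norm_num) (sqf (by norm_num) (by norm_num)
    (by norm_num) (by norm_num) (by norm_num)) (by norm_num [tg]) (by norm_num) (by norm_num) (by norm_num)
    (by norm_num) (Or.inl (by norm_num)) (Or.inl (by norm_num))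

theorem c13 {m : ℕ} (h : Near m) : Win 13 m :=
  cover h 1 13 (7211 / 2000) (4507 / 1250) 0 (by norm_num) (by norm_num) (by norm_num) (sqf (by norm_num) (by norm_num)
    (by norm_num) (by norm_num) (by norm_num)) (by norm_num [tg]) (by norm_num) (by norm_num) (by norm_num)
    (by norm_num) (Or.inl (by norm_num)) (Or.inl (by norm_num))

theorem c14 {m : ℕ} (h : Near m) : Win 14 m :=
  cover h 1 14 (4677 / 1250) (37417 / 10000) 0 (by norm_num) (by norm_num) (by norm_num) (sqf (by norm_num) (by norm_num)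
    (by norm_num) (by norm_num) (by norm_num)) (by norm_num [tg]) (by norm_num) (by norm_num) (by norm_num)
    (by norm_num) (Or.inl (by norm_num)) (Or.inl (by norm_num))

theorem c15 {m : ℕ} (h : Near m) : Win 15 m :=
  cover h 1 15 (38729 / 10000) (3873 / 1000) 0 (by norm_num) (by norm_num) (by norm_num) (sqf (by norm_num) (by norm_num)
    (by norm_num) (by norm_num) (by norm_num)) (by norm_num [tg]) (by norm_num) (by norm_num) (by norm_num)
    (by norm_num) (Or.inl (by norm_num)) (Or.inl (by norm_num))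

theorem c17 {m : ℕ} (h : Near m) : Win 17 m :=
  cover h 1 17 (41231 / 10000) (2577 / 625) (1 / 5) (by norm_num) (by norm_num) (by norm_num) (sqf (by norm_num) (by norm_num)
    (by norm_num) (by norm_num) (by norm_num)) (by norm_num [tg]) (by norm_num) (by norm_num) (by norm_num)
    (by norm_num) (Or.inl (by norm_num)) (Or.inr (by norm_num))

theorem c18 {m : ℕ} (h : Near m) : Win 18 m :=
  cover h 3 2 (21213 / 5000) (42427 / 10000) (2 / 29) (by norm_num) (by norm_num) (by norm_num) (sqf (by norm_num) (by norm_num)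
    (by norm_num) (by norm_num) (by norm_num)) (by norm_num [tg]) (by norm_num) (by norm_num) (by norm_num)
    (by norm_num) (Or.inr (by norm_num)) (Or.inr (by norm_num))

theorem c19 {m : ℕ} (h : Near m) : Win 19 m :=
  cover h 1 19 (10897 / 2500) (43589 / 10000) (1 / 5) (by norm_num) (by norm_num) (by norm_num) (sqf (by norm_num) (by norm_num)
    (by norm_num) (by norm_num) (by norm_num)) (by norm_num [tg]) (by norm_num) (by norm_num) (by norm_num)
    (by norm_num) (Or.inr (by norm_num)) (Or.inr (by norm_num))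

theorem c20 {m : ℕ} (h : Near m) : Win 20 m :=
  cover h 2 5 (44721 / 10000) (22361 / 5000) (1 / 11) (by norm_num) (by norm_num) (by norm_num) (sqf (by norm_num) (by norm_num)
    (by norm_num) (by norm_num) (by norm_num)) (by norm_num [tg]) (by norm_num) (by norm_num) (by norm_num)
    (by norm_num) (Or.inr (by norm_num)) (Or.inr (by norm_num))

theorem c21 {m : ℕ} (h : Near m) : Win 21 m :=
  cover h 1 21 (1833 / 400) (22913 / 5000) (1 / 5) (by norm_num) (by norm_num) (by norm_num) (sqf (by norm_num) (by norm_num)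
    (by norm_num) (by norm_num) (by norm_num)) (by norm_num [tg]) (by norm_num) (by norm_num) (by norm_num)
    (by norm_num) (Or.inr (by norm_num)) (Or.inr (by norm_num))

theorem c22 {m : ℕ} (h : Near m) : Win 22 m :=
  cover h 1 22 (5863 / 1250) (9381 / 2000) (1 / 5) (by norm_num) (by norm_num) (by norm_num) (sqf (by norm_num) (by norm_num)
    (by norm_num) (by norm_num) (by norm_num)) (by norm_num [tg]) (by norm_num) (by norm_num) (by norm_num)
    (by norm_num) (Or.inr (by norm_num)) (Or.inr (by norm_num))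

theorem c23 {m : ℕ} (h : Near m) : Win 23 m :=
  cover h 1 23 (23979 / 5000) (47959 / 10000) (1 / 5) (by norm_num) (by norm_num) (by norm_num) (sqf (by norm_num) (by norm_num)
    (by norm_num) (by norm_num) (by norm_num)) (by norm_num [tg]) (by norm_num) (by norm_num) (by norm_num)
    (by norm_num) (Or.inr (by norm_num)) (Or.inr (by norm_num))

theorem c24 {m : ℕ} (h : Near m) : Win 24 m :=
  cover h 2 6 (48989 / 10000) (4899 / 1000) (1 / 10) (by norm_num) (by norm_num) (by norm_num) (sqf (by norm_num) (by norm_num)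
    (by norm_num) (by norm_num) (by norm_num)) (by norm_num [tg]) (by norm_num) (by norm_num) (by norm_num)
    (by norm_num) (Or.inr (by norm_num)) (Or.inr (by norm_num))

theorem c26 {m : ℕ} (h : Near m) : Win 26 m :=
  cover h 1 26 (5099 / 1000) (50991 / 10000) (1 / 5) (by norm_num) (by norm_num) (by norm_num) (sqf (by norm_num) (by norm_num)
    (by norm_num) (by norm_num) (by norm_num)) (by norm_num [tg]) (by norm_num) (by norm_num) (by norm_num)
    (by norm_num) (Or.inr (by norm_num)) (Or.inr (by norm_num))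

theorem c27 {m : ℕ} (h : Near m) : Win 27 m :=
  cover h 3 3 (51961 / 10000) (25981 / 5000) (1 / 19) (by norm_num) (by norm_num) (by norm_num) (sqf (by norm_num) (by norm_num)
    (by norm_num) (by norm_num) (by norm_num)) (by norm_num [tg]) (by norm_num) (by norm_num) (by norm_num)
    (by norm_num) (Or.inr (by norm_num)) (Or.inr (by norm_num))

theorem c28 {m : ℕ} (h : Near m) : Win 28 m :=
  cover h 2 7 (10583 / 2000) (13229 / 2500) (1 / 10) (by norm_num) (by norm_num) (by norm_num) (sqf (by norm_num) (by norm_num)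
    (by norm_num) (by norm_num) (by norm_num)) (by norm_num [tg]) (by norm_num) (by norm_num) (by norm_num)
    (by norm_num) (Or.inr (by norm_num)) (Or.inr (by norm_num))

theorem c29 {m : ℕ} (h : Near m) : Win 29 m :=
  cover h 1 29 (53851 / 10000) (13463 / 2500) (1 / 5) (by norm_num) (by norm_num) (by norm_num) (sqf (by norm_num) (by norm_num)
    (by norm_num) (by norm_num) (by norm_num)) (by norm_num [tg]) (by norm_num) (by norm_num) (by norm_num)
    (by norm_num) (Or.inr (by norm_num)) (Or.inr (by norm_num))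

theorem c30 {m : ℕ} (h : Near m) : Win 30 m :=
  cover h 1 30 (13693 / 2500) (54773 / 10000) (1 / 5) (by norm_num) (by norm_num) (by norm_num) (sqf (by norm_num) (by norm_num)
    (by norm_num) (by norm_num) (by norm_num)) (by norm_num [tg]) (by norm_num) (by norm_num) (by norm_num)
    (by norm_num) (Or.inr (by norm_num)) (Or.inr (by norm_num))

theorem c31 {m : ℕ} (h : Near m) : Win 31 m :=
  cover h 1 31 (55677 / 10000) (27839 / 5000) (1 / 5) (by norm_num) (by norm_num) (by norm_num) (sqf (by norm_num) (by norm_num)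
    (by norm_num) (by norm_num) (by norm_num)) (by norm_num [tg]) (by norm_num) (by norm_num) (by norm_num)
    (by norm_num) (Or.inr (by norm_num)) (Or.inr (by norm_num))

theorem c32 {m : ℕ} (h : Near m) : Win 32 m :=
  cover h 4 2 (7071 / 1250) (56569 / 10000) (2 / 29) (by norm_num) (by norm_num) (by norm_num) (sqf (by norm_num) (by norm_num)
    (by norm_num) (by norm_num) (by norm_num)) (by norm_num [tg]) (by norm_num) (by norm_num) (by norm_num)
    (by norm_num) (Or.inr (by norm_num)) (Or.inr (by norm_num))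

theorem c33 {m : ℕ} (h : Near m) : Win 33 m :=
  cover h 1 33 (11489 / 2000) (28723 / 5000) (1 / 5) (by norm_num) (by norm_num) (by norm_num) (sqf (by norm_num) (by norm_num)
    (by norm_num) (by norm_num) (by norm_num)) (by norm_num [tg]) (by norm_num) (by norm_num) (by norm_num)
    (by norm_num) (Or.inr (by norm_num)) (Or.inr (by norm_num))

theorem c34 {m : ℕ} (h : Near m) : Win 34 m :=
  cover h 1 34 (58309 / 10000) (5831 / 1000) (1 / 5) (by norm_num) (by norm_num) (by norm_num) (sqf (by norm_num) (by norm_num)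
    (by norm_num) (by norm_num) (by norm_num)) (by norm_num [tg]) (by norm_num) (by norm_num) (by norm_num)
    (by norm_num) (Or.inr (by norm_num)) (Or.inr (by norm_num))

theorem c35 {m : ℕ} (h : Near m) : Win 35 m :=
  cover h 1 35 (1479 / 250) (59161 / 10000) (1 / 5) (by norm_num) (by norm_num) (by norm_num) (sqf (by norm_num) (by norm_num)
    (by norm_num) (by norm_num) (by norm_num)) (by norm_num [tg]) (by norm_num) (by norm_num) (by norm_num)
    (by norm_num) (Or.inr (by norm_num)) (Or.inr (by norm_num))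

theorem c37 {m : ℕ} (h : Near m) : Win 37 m :=
  cover h 1 37 (60827 / 10000) (15207 / 2500) (1 / 5) (by norm_num) (by norm_num) (by norm_num) (sqf (by norm_num) (by norm_num)
    (by norm_num) (by norm_num) (by norm_num)) (by norm_num [tg]) (by norm_num) (by norm_num) (by norm_num)
    (by norm_num) (Or.inr (by norm_num)) (Or.inr (by norm_num))

theorem c38 {m : ℕ} (h : Near m) : Win 38 m :=
  cover h 1 38 (15411 / 2500) (12329 / 2000) (1 / 5) (by norm_num) (by norm_num) (by norm_num) (sqf (by norm_num) (by norm_num)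
    (by norm_num) (by norm_num) (by norm_num)) (by norm_num [tg]) (by norm_num) (by norm_num) (by norm_num)
    (by norm_num) (Or.inr (by norm_num)) (Or.inr (by norm_num))

theorem c39 {m : ℕ} (h : Near m) : Win 39 m :=
  cover h 1 39 (62449 / 10000) (1249 / 200) (1 / 5) (by norm_num) (by norm_num) (by norm_num) (sqf (by norm_num) (by norm_num)
    (by norm_num) (by norm_num) (by norm_num)) (by norm_num [tg]) (by norm_num) (by norm_num) (by norm_num)
    (by norm_num) (Or.inr (by norm_num)) (Or.inr (by norm_num))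

theorem c40 {m : ℕ} (h : Near m) : Win 40 m :=
  cover h 2 10 (12649 / 2000) (31623 / 5000) (1 / 12) (by norm_num) (by norm_num) (by norm_num) (sqf (by norm_num) (by norm_num)
    (by norm_num) (by norm_num) (by norm_num)) (by norm_num [tg]) (by norm_num) (by norm_num) (by norm_num)
    (by norm_num) (Or.inr (by norm_num)) (Or.inr (by norm_num))

theorem c41 {m : ℕ} (h : Near m) : Win 41 m :=
  cover h 1 41 (64031 / 10000) (4002 / 625) (1 / 5) (by norm_num) (by norm_num) (by norm_num) (sqf (by norm_num) (by norm_num)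
    (by norm_num) (by norm_num) (by norm_num)) (by norm_num [tg]) (by norm_num) (by norm_num) (by norm_num)
    (by norm_num) (Or.inr (by norm_num)) (Or.inr (by norm_num))

theorem c42 {m : ℕ} (h : Near m) : Win 42 m :=
  cover h 1 42 (64807 / 10000) (8101 / 1250) (1 / 5) (by norm_num) (by norm_num) (by norm_num) (sqf (by norm_num) (by norm_num)
    (by norm_num) (by norm_num) (by norm_num)) (by norm_num [tg]) (by norm_num) (by norm_num) (by norm_num)
    (by norm_num) (Or.inr (by norm_num)) (Or.inr (by norm_num))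

theorem c43 {m : ℕ} (h : Near m) : Win 43 m :=
  cover h 1 43 (32787 / 5000) (2623 / 400) (1 / 5) (by norm_num) (by norm_num) (by norm_num) (sqf (by norm_num) (by norm_num)
    (by norm_num) (by norm_num) (by norm_num)) (by norm_num [tg]) (by norm_num) (by norm_num) (by norm_num)
    (by norm_num) (Or.inr (by norm_num)) (Or.inr (by norm_num))

theorem c44 {m : ℕ} (h : Near m) : Win 44 m :=
  cover h 2 11 (16583 / 2500) (66333 / 10000) (1 / 12) (by norm_num) (by norm_num) (by norm_num) (sqf (by norm_num) (by norm_num)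
    (by norm_num) (by norm_num) (by norm_num)) (by norm_num [tg]) (by norm_num) (by norm_num) (by norm_num)
    (by norm_num) (Or.inr (by norm_num)) (Or.inr (by norm_num))

theorem c45 {m : ℕ} (h : Near m) : Win 45 m :=
  cover h 3 5 (33541 / 5000) (67083 / 10000) (1 / 11) (by norm_num) (by norm_num) (by norm_num) (sqf (by norm_num) (by norm_num)
    (by norm_num) (by norm_num) (by norm_num)) (by norm_num [tg]) (by norm_num) (by norm_num) (by norm_num)
    (by norm_num) (Or.inr (by norm_num)) (Or.inr (by norm_num))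

theorem c46 {m : ℕ} (h : Near m) : Win 46 m :=
  cover h 1 46 (67823 / 10000) (4239 / 625) (1 / 5) (by norm_num) (by norm_num) (by norm_num) (sqf (by norm_num) (by norm_num)
    (by norm_num) (by norm_num) (by norm_num)) (by norm_num [tg]) (by norm_num) (by norm_num) (by norm_num)
    (by norm_num) (Or.inr (by norm_num)) (Or.inr (by norm_num))

theorem c47 {m : ℕ} (h : Near m) : Win 47 m :=
  cover h 1 47 (17139 / 2500) (68557 / 10000) (1 / 5) (by norm_num) (by norm_num) (by norm_num) (sqf (by norm_num) (by norm_num)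
    (by norm_num) (by norm_num) (by norm_num)) (by norm_num [tg]) (by norm_num) (by norm_num) (by norm_num)
    (by norm_num) (Or.inr (by norm_num)) (Or.inr (by norm_num))

theorem c48 {m : ℕ} (h : Near m) : Win 48 m :=
  cover h 4 3 (34641 / 5000) (69283 / 10000) (1 / 19) (by norm_num) (by norm_num) (by norm_num) (sqf (by norm_num) (by norm_num)
    (by norm_num) (by norm_num) (by norm_num)) (by norm_num [tg]) (by norm_num) (by norm_num) (by norm_num)
    (by norm_num) (Or.inr (by norm_num)) (Or.inr (by norm_num))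

/-- all the numbers from `10` to `49` which are not squares -/
theorem win49 {m : ℕ} (h : Near m) {r : ℕ} (h1 : 10 ≤ r) (h2 : r ≤ 49) (hsq : ¬ IsSquare r) : Win r m := by
  interval_cases r
  · exact c10 h
  · exact c11 h
  · exact c12 h
  · exact c13 h
  · exact c14 h
  · exact c15 h
  · exact absurd ⟨4, rfl⟩ hsq
  · exact c17 h
  · exact c18 h
  · exact c19 h
  · exact c20 h
  · exact c21 h
  · exact c22 h
  · exact c23 h
  · exact c24 h
  · exact absurd ⟨5, rfl⟩ hsq
  · exact c26 h
  · exact c27 h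
  · exact c28 h
  · exact c29 h
  · exact c30 h
  · exact c31 h
  · exact c32 h
  · exact c33 h
  · exact c34 h
  · exact c35 h
  · exact absurd ⟨6, rfl⟩ hsq
  · exact c37 h
  · exact c38 h
  · exact c39 h
  · exact c40 h
  · exact c41 h
  · exact c42 h
  · exact c43 h
  · exact c44 h
  · exact c45 h
  · exact c46 h
  · exact c47 h
  · exact c48 h
  · exact absurd ⟨7, rfl⟩ hsq

/-- collisions outside of the window -/
theorem coll_of_win {r m : ℕ} (hr : 10 ≤ r) (h : Win r m) :
    Pool.Agent.Results.MP_e6aa12_ag.EveryNumberOfPoints.Expected.{u} r m Set.univ := by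
  intro k _ _
  obtain ⟨F, hF, hF'⟩ := Pool.Agent.TH183.QS.coll_every hr m k
  refine ⟨F, hF, fun c a hc d _ => hF' c a hc d ?_⟩
  have e1 : √(r : ℝ) * (2 * m + 1) = 2 * (√(r : ℝ) * m) + √(r : ℝ) := by ring
  have e2 : √(r : ℝ) * (m + 1) = √(r : ℝ) * m + √(r : ℝ) := by ring
  rcases h d with h1 | h1
  · unfold wa at h1
    rcases min_choice (√(r : ℝ) - 3) (2 / 3 + 9 / (4 * √(r : ℝ))) with h2 | h2
    · rw [h2] at h1
      left
      linarith
    · rw [h2] at h1
      right; right; left
      linarith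
  · unfold wb at h1
    rcases min_choice (√(r : ℝ) - 3) (2 / 3 + 1 / (4 * √(r : ℝ))) with h2 | h2
    · rw [h2] at h1
      right; left
      linarith
    · rw [h2] at h1
      right; right; right
      linarith

/-- collisions of a square number of points -/
theorem coll_sq {r m : ℕ} (hr : 10 ≤ r) (h : IsSquare r) :
    Pool.Agent.Results.MP_e6aa12_ag.EveryNumberOfPoints.Expected.{u} r m Set.univ := by
  intro k _ _
  obtain ⟨F, hF, hF'⟩ := Pool.Agent.TH183.QS.coll_start (m := m) hr (Or.inr h) k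
  exact ⟨F, hF, fun c a hc d _ => hF' c a hc d⟩

/-- target zero -/
theorem win_zero {r m : ℕ} (hr : 10 ≤ r) (h : r ≤ 15 ∨ 46 ≤ r) {e : ℤ}
    (he : |√(r : ℝ) * (2 * m + 1) - 2 * e| < 1 / 1000) : Win r m := by
  have hrR : (10 : ℝ) ≤ r := by exact_mod_cast hr
  have hs3 : 3 ≤ √(r : ℝ) := Real.le_sqrt_of_sq_le (by linarith)
  have hs0 : 0 < √(r : ℝ) := by linarith
  refine win_of_near (θ := 0) (δ := 1 / 1000) e (by rwa [sub_zero]) ?_ ?_
  · rcases h with h | h
    · have h1 : √(r : ℝ) ≤ 39 / 10 := by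
        rw [Real.sqrt_le_iff]
        have : (r : ℝ) ≤ 15 := by exact_mod_cast h
        exact ⟨by norm_num, by linarith⟩
      have h2 : wa r ≤ √(r : ℝ) - 3 := min_le_left _ _
      linarith
    · have h1 : 678 / 100 ≤ √(r : ℝ) := by
        apply Real.le_sqrt_of_sq_le
        have : (46 : ℝ) ≤ r := by exact_mod_cast h
        norm_num
        linarith
      have h2 : wa r ≤ 2 / 3 + 9 / (4 * √(r : ℝ)) := min_le_right _ _
      have h3 : 9 / (4 * √(r : ℝ)) ≤ 9 / (4 * (678 / 100)) := by gcongr
      have h4 : (9 : ℝ) / (4 * (678 / 100)) ≤ 1 / 3 - 1 / 1000 := by norm_num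
      linarith
  · have h2 : wb r ≤ 2 / 3 + 1 / (4 * √(r : ℝ)) := min_le_right _ _
    have h3 : 1 / (4 * √(r : ℝ)) ≤ 1 / (4 * 3) := by gcongr
    have h4 : (1 : ℝ) / (4 * 3) ≤ 1 / 3 - 1 / 1000 := by norm_num
    linarith

end Pool.Agent.Q241.FP
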