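import Pool.Agent.Q241.FP.Num
import Pool.Agent.Results.MP_b56c98_ag.PlaneAllDegrees

set_option autoImplicit false

/-!
# All numbers of points at a multiplicity outside of all the windows
-/

namespace Pool.Agent.Q241.FP

/-- the numbers `r ≥ 10` -/
theorem cases10 {r : ℕ} (h : 10 ≤ r) :
    (37 ≤ r ∨ r = 13 ∨ r = 21 ∨ (10 ≤ r ∧ IsSquare r)) ∨ r ∈ LL := by
  by_cases h37 : 37 ≤ r
  · exact Or.inl (Or.inl h37)
  · have h16 : IsSquare 16 := ⟨4, rfl⟩
    have h25 : IsSquare 25 := ⟨5, rfl⟩
    have h36 : IsSquare 36 := ⟨6, rfl⟩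
    have hr : r ≤ 36 := by omega
    interval_cases r <;> first
      | (right; decide)
      | (left; right; left; rfl)
      | (left; right; right; left; rfl)
      | (left; right; right; right; exact ⟨by norm_num, h16⟩)
      | (left; right; right; right; exact ⟨by norm_num, h25⟩)
      | (left; right; right; right; exact ⟨by norm_num, h36⟩)

/-- the expected dimension for `r` points of multiplicity `m`, in all degrees -/
theorem expDim_all {r m : ℕ} (hr : 10 ≤ r) (hm : 1 ≤ m) (hwin : ∀ n ∈ LL, Win n m) :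
    ∃ F : MvPolynomial (Fin r × Fin 2) ℚ, F ≠ 0 ∧ ∀ P : Fin r → Fin 2 → ℂ,
      MvPolynomial.aeval (fun ij : Fin r × Fin 2 => P ij.1 ij.2) F ≠ 0 →
      ∀ d : ℕ, Pool.Agent.H932R3.ExpDim ℂ (fun _ => m) P d := by
  rcases cases10 hr with h | h
  · exact Pool.Agent.Results.MP_b56c98_ag.PlaneAllDegrees.all_of hm h
  · obtain ⟨F, hF, hF'⟩ := Pool.Agent.TH641.NW.expDim_uni_win2 (L := ℂ) hr hm
    refine ⟨F, hF, fun P hP d => hF' P hP d ?_⟩
    rcases hwin r h d with h1 | h1
    · unfold wa at h1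
      exact Or.inl (by linarith)
    · unfold wb at h1
      exact Or.inr (by linarith)

/-- the numbers of points for which a window is open -/
def openNumbers : Finset ℕ :=
  {10, 11, 12, 14, 15, 17, 18, 19, 20, 22, 23, 24, 26, 27, 28, 29, 30, 31, 32, 33, 34, 35}

/-- the explicit multiplicities: translates of `m0` by the `k` with `k √n` close to integers -/
theorem explicit {p : ℕ → Prop} (h : ∀ m : ℕ, 1 ≤ m → (∀ n ∈ LL, Win n m) → p m) {k : ℕ}
    (hk : ∀ n ∈ openNumbers, ∃ f : ℤ, |(k : ℝ) * √(n : ℝ) - f| < 1 / 241) :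
    p (74602991693235067300949 + k) := by
  refine h _ (by omega) fun n hn => ?_
  obtain ⟨f, hf⟩ := hk n hn
  exact win_of hn hf

end Pool.Agent.Q241.FP
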