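import Pool.Agent.Q117.HH.E

set_option autoImplicit false

/-!
# A positive proportion, in all intervals, along polynomials and along polynomials at primes
-/

namespace Pool.Agent.Q241.FP

open Finset Filter Polynomial
open Pool.Agent.Q117.HH (Arc cntI cntP cntS master short ncard_ge ncard_ge_prime cntS_ge toNat_cast)

theorem sf_eq {a b : ℕ} (ha : Squarefree a) (hb : Squarefree b) (h : IsSquare (a * b)) : a = b := by
  obtain ⟨c, hc⟩ := h
  have h1 : a ∣ c ^ 2 := ⟨b, by rw [hc]; ring⟩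
  rw [ha.dvd_pow_iff_dvd two_ne_zero] at h1
  obtain ⟨e, rfl⟩ := h1
  have ha0 : 0 < a := Nat.pos_of_ne_zero ha.ne_zero
  have h2 : b = e * e * a := by
    apply Nat.eq_of_mul_eq_mul_left ha0
    rw [hc]
    ring
  have h3 : IsUnit e := hb e ⟨a, h2⟩
  rw [Nat.isUnit_iff] at h3
  rw [h2, h3]
  ring

theorem sf_one {a : ℕ} (ha : Squarefree a) (h : IsSquare a) : a = 1 := by
  obtain ⟨t, rfl⟩ := h
  have := ha t dvd_rfl
  rw [Nat.isUnit_iff] at this
  rw [this]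

/-- a positive proportion of the numbers in all long intervals, along polynomials and at primes -/
def Often (Q : ℕ → Prop) : Prop := ∃ c : ℝ, 0 < c ∧
  (∀ᶠ N : ℕ in atTop, ∀ x : ℕ, c * N ≤ Set.ncard {m : ℕ | x < m ∧ m ≤ x + N ∧ Q m}) ∧
  ∀ f : ℤ[X], 1 ≤ f.natDegree → 0 < f.leadingCoeff → ∀ᶠ N : ℕ in atTop,
    c * N ≤ Set.ncard {k : ℕ | 1 ≤ k ∧ k ≤ N ∧ 0 < f.eval (k : ℤ) ∧ Q (f.eval (k : ℤ)).toNat} ∧
    c * (Nat.primeCounting N : ℝ) ≤
      Set.ncard {p : ℕ | p.Prime ∧ p ≤ N ∧ 0 < f.eval (p : ℤ) ∧ Q (f.eval (p : ℤ)).toNat}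

theorem arc_iff {y δ : ℝ} {k : ℕ} {z : ℤ} (h : Arc 2 ((y - δ) / 2) ((y + δ) / 2) k z) :
    ∃ e : ℤ, |√(k : ℝ) * (2 * (z : ℝ) + 1) - y - 2 * e| < δ := by
  obtain ⟨j, h1, h2⟩ := h
  push_cast at h1 h2
  refine ⟨j, ?_⟩
  rw [abs_lt]
  constructor
  · linarith
  · linarith

/-- several targets at once -/
theorem many {K : Finset ℕ} (hK : ∀ k ∈ K, Squarefree k ∧ k ≠ 1) (y : ℕ → ℝ) {δ : ℝ} (hδ0 : 0 < δ)
    (hδ1 : δ ≤ 1) {Q : ℕ → Prop} (hQ : ∀ m : ℕ, 0 < m →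
      (∀ k ∈ K, ∃ e : ℤ, |√(k : ℝ) * (2 * m + 1) - y k - 2 * e| < δ) → Q m) : Often Q := by
  classical
  have hprod : ∏ i : {k // k ∈ K}, ((y i + δ) / 2 - (y i - δ) / 2) =
      δ ^ (Fintype.card {k // k ∈ K}) := by
    rw [← Finset.card_univ, ← Finset.prod_const]
    exact Finset.prod_congr rfl fun i _ => by ring
  set c : ℝ := δ ^ (Fintype.card {k // k ∈ K}) / 2 with hc
  have hc0 : 0 < c := by positivity
  have hlt : c < ∏ i : {k // k ∈ K}, ((y i + δ) / 2 - (y i - δ) / 2) := by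
    rw [hprod]
    have : 0 < δ ^ (Fintype.card {k // k ∈ K}) := by positivity
    rw [hc]
    linarith
  have hr : ∀ i : {k // k ∈ K}, ¬ IsSquare (i : ℕ) := fun i h => (hK i i.2).2 (sf_one (hK i i.2).1 h)
  have hrr : ∀ i j : {k // k ∈ K}, i ≠ j → ¬ IsSquare ((i : ℕ) * (j : ℕ)) := fun i j hij h =>
    hij (Subtype.ext (sf_eq (hK i i.2).1 (hK j j.2).1 h))
  refine ⟨c, hc0, ?_, fun f hf hlc => ?_⟩
  · have g := short (ι := {k // k ∈ K}) (r := fun i => i) (q := fun _ => 2)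
      (A := fun i => (y i - δ) / 2) (B := fun i => (y i + δ) / 2) hr hrr (fun _ => by norm_num)
      (fun i => by linarith) (fun i => by linarith) hlt
    filter_upwards [g] with N hN x
    refine (hN x).trans (Nat.cast_le.2 (cntS_ge x N _ fun m hm hk => ?_))
    refine hQ m hm fun k hk' => ?_
    have := arc_iff (hk ⟨k, hk'⟩)
    simpa using this
  · obtain ⟨g1, g2⟩ := master (ι := {k // k ∈ K}) (r := fun i => i) (q := fun _ => 2)
      (A := fun i => (y i - δ) / 2) (B := fun i => (y i + δ) / 2) hr hrr (fun _ => by norm_num)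
      (fun i => by linarith) (fun i => by linarith) hf hlc hlt
    have key : ∀ k : ℕ, (0 < f.eval (k : ℤ) ∧
        ∀ i : {k // k ∈ K}, Arc 2 ((y i - δ) / 2) ((y i + δ) / 2) i (f.eval (k : ℤ))) →
        0 < f.eval (k : ℤ) ∧ Q (f.eval (k : ℤ)).toNat := by
      rintro k ⟨h1, h2⟩
      refine ⟨h1, hQ _ (by omega) fun l hl => ?_⟩
      have h3 := arc_iff (h2 ⟨l, hl⟩)
      rw [toNat_cast h1]
      exact h3
    filter_upwards [g1, g2] with N h1 h2
    constructor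
    · refine h1.trans (Nat.cast_le.2 (ncard_ge _ N _ (fun k hk1 hk2 hk => ?_) fun k hk => hk.2.1))
      exact ⟨hk1, hk2, key k hk⟩
    · refine h2.trans (Nat.cast_le.2 (ncard_ge_prime _ N _ (fun k hk1 hk2 hk => ?_) fun k hk => hk.2.1))
      exact ⟨hk1, hk2, key k hk⟩

end Pool.Agent.Q241.FP
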