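import Mathlib

set_option autoImplicit false

/-!
# Multiplicities outside of all the windows

`LL` is the set of the numbers `n` of points for which the critical degree of the uniform
Harbourne-Hirschowitz conjecture is not settled by the starting library.  For a set of multiplicities `m` with
bounded gaps the window of `n` contains no odd number, for all `n ∈ LL` simultaneously.
-/

namespace Pool.Agent.Q241.FP

open Finset Filter Topology

/-- the numbers of points in question -/
def LL : Finset ℕ := {10, 11, 12, 14, 15, 17, 18, 19, 20, 22, 23, 24, 26, 27, 28, 29, 30, 31, 32, 33, 34, 35}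

/-- the half widths of the windows -/
noncomputable def wa (n : ℕ) : ℝ := min (√(n : ℝ) - 3) (2 / 3 + 9 / (4 * √(n : ℝ)))

/-- the half widths of the windows -/
noncomputable def wb (n : ℕ) : ℝ := min (√(n : ℝ) - 3) (2 / 3 + 1 / (4 * √(n : ℝ)))

/-- the window contains no odd number `2 d + 3` -/
def Win (n m : ℕ) : Prop := ∀ d : ℕ,
  2 * (d : ℝ) + 3 < √(n : ℝ) * (2 * m + 1) - wa n ∨ √(n : ℝ) * (2 * m + 1) + wb n < 2 * (d : ℝ) + 3

/-- a multiplicity which is outside of all the windows -/
def m0 : ℕ := 74602991693235067300949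

/-- the distances of `m0` to the ends of the window -/
def Base (n : ℕ) : Prop := ∃ e : ℤ, Even e ∧ (e : ℝ) - 1 + wa n + 1 / 120 ≤ √(n : ℝ) * (2 * m0 + 1) ∧
  √(n : ℝ) * (2 * m0 + 1) ≤ e + 1 - wb n - 1 / 120

theorem base_of (n : ℕ) (e : ℤ) (sl su a b : ℚ) (h1 : 0 < sl) (h2 : sl ^ 2 ≤ n) (h3 : (n : ℚ) ≤ su ^ 2)
    (h4 : su - 3 ≤ a ∨ 2 / 3 + 9 / (4 * sl) ≤ a) (h5 : su - 3 ≤ b ∨ 2 / 3 + 1 / (4 * sl) ≤ b)
    (he : Even e) (h6 : ((e : ℚ) - 1 + a + 1 / 120) ^ 2 ≤ n * (2 * 74602991693235067300949 + 1) ^ 2)
    (h7 : (n : ℚ) * (2 * 74602991693235067300949 + 1) ^ 2 ≤ (e + 1 - b - 1 / 120) ^ 2)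
    (h8 : 0 < su ∧ 0 ≤ (e : ℚ) + 1 - b - 1 / 120) : Base n := by
  have c1 : (0 : ℝ) < sl := by exact_mod_cast h1
  have c2 : (sl : ℝ) ^ 2 ≤ n := by exact_mod_cast h2
  have c3 : (n : ℝ) ≤ (su : ℝ) ^ 2 := by exact_mod_cast h3
  have c8 : (0 : ℝ) < su := by exact_mod_cast h8.1
  have s1 : (sl : ℝ) ≤ √(n : ℝ) := Real.le_sqrt_of_sq_le c2
  have s2 : √(n : ℝ) ≤ su := Real.sqrt_le_iff.2 ⟨c8.le, c3⟩
  have hs : 0 < √(n : ℝ) := lt_of_lt_of_le c1 s1
  have hwa : wa n ≤ a := by
    rcases h4 with h | h
    · have h' : (su : ℝ) - 3 ≤ a := by exact_mod_cast h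
      exact (min_le_left _ _).trans (by linarith)
    · have h' : ((2 / 3 + 9 / (4 * sl) : ℚ) : ℝ) ≤ (a : ℝ) := Rat.cast_le.2 h
      push_cast at h'
      refine (min_le_right _ _).trans (le_trans ?_ h')
      gcongr
  have hwb : wb n ≤ b := by
    rcases h5 with h | h
    · have h' : (su : ℝ) - 3 ≤ b := by exact_mod_cast h
      exact (min_le_left _ _).trans (by linarith)
    · have h' : ((2 / 3 + 1 / (4 * sl) : ℚ) : ℝ) ≤ (b : ℝ) := Rat.cast_le.2 h
      push_cast at h'
      refine (min_le_right _ _).trans (le_trans ?_ h')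
      gcongr
  have hm : ((m0 : ℕ) : ℝ) = 74602991693235067300949 := by
    unfold m0
    norm_num
  have hx : (√(n : ℝ) * (2 * (m0 : ℝ) + 1)) ^ 2 = n * (2 * 74602991693235067300949 + 1) ^ 2 := by
    rw [mul_pow, Real.sq_sqrt (Nat.cast_nonneg n), hm]
  have hx0 : 0 ≤ √(n : ℝ) * (2 * (m0 : ℝ) + 1) := by positivity
  refine ⟨e, he, ?_, ?_⟩
  · have h6' : ((e : ℝ) - 1 + a + 1 / 120) ^ 2 ≤ n * (2 * 74602991693235067300949 + 1) ^ 2 := by
      have h6a : (((e - 1 + a + 1 / 120) ^ 2 : ℚ) : ℝ) ≤
          ((n * (2 * 74602991693235067300949 + 1) ^ 2 : ℚ) : ℝ) := Rat.cast_le.2 h6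
      push_cast at h6a
      exact h6a
    rw [← hx] at h6'
    have := abs_le_of_sq_le_sq h6' hx0
    have h9 := (le_abs_self _).trans this
    linarith
  · have h7' : (n : ℝ) * (2 * 74602991693235067300949 + 1) ^ 2 ≤ ((e : ℝ) + 1 - b - 1 / 120) ^ 2 := by
      have h7a : ((n * (2 * 74602991693235067300949 + 1) ^ 2 : ℚ) : ℝ) ≤
          (((e + 1 - b - 1 / 120) ^ 2 : ℚ) : ℝ) := Rat.cast_le.2 h7
      push_cast at h7a
      exact h7a
    have h8' : (0 : ℝ) ≤ (e : ℝ) + 1 - b - 1 / 120 := by
      have h8a : ((0 : ℚ) : ℝ) ≤ ((e + 1 - b - 1 / 120 : ℚ) : ℝ) := Rat.cast_le.2 h8.2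
      push_cast at h8a
      exact h8a
    rw [← hx] at h7'
    have := abs_le_of_sq_le_sq h7' h8'
    have h9 := (le_abs_self _).trans this
    linarith

theorem g10 : Base 10 :=
  base_of 10 471830748026488856721630 (3162277 / 1000000) (1581139 / 500000) (4057 / 25000) (4057 / 25000) (by norm_num) (by norm_num) (by norm_num)
    (Or.inl (by norm_num)) (Or.inl (by norm_num)) (by decide) (by norm_num) (by norm_num) (by norm_num)

theorem g11 : Base 11 :=
  base_of 11 494860263368922782997892 (207289 / 62500) (26533 / 8000) (31663 / 100000) (31663 / 100000) (by norm_num) (by norm_num) (by norm_num)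
    (Or.inl (by norm_num)) (Or.inl (by norm_num)) (by decide) (by norm_num) (by norm_num) (by norm_num)

theorem g12 : Base 12 :=
  base_of 12 516864688037288171051228 (3464101 / 1000000) (1732051 / 500000) (46411 / 100000) (46411 / 100000) (by norm_num) (by norm_num) (by norm_num)
    (Or.inl (by norm_num)) (Or.inl (by norm_num)) (by decide) (by norm_num) (by norm_num) (by norm_num)

theorem g14 : Base 14 :=
  base_of 14 558277669888855957121120 (3741657 / 1000000) (1870829 / 500000) (37083 / 50000) (73349 / 100000) (by norm_num) (by norm_num) (by norm_num)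
    (Or.inl (by norm_num)) (Or.inr (by norm_num)) (by decide) (by norm_num) (by norm_num) (by norm_num)

theorem g15 : Base 15 :=
  base_of 15 577872288810299353363664 (3872983 / 1000000) (484123 / 125000) (87299 / 100000) (36561 / 50000) (by norm_num) (by norm_num) (by norm_num)
    (Or.inl (by norm_num)) (Or.inr (by norm_num)) (by decide) (by norm_num) (by norm_num) (by norm_num)

theorem g17 : Base 17 :=
  base_of 17 615192029476570210606728 (824621 / 200000) (2061553 / 500000) (112311 / 100000) (72731 / 100000) (by norm_num) (by norm_num) (by norm_num)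
    (Or.inl (by norm_num)) (Or.inr (by norm_num)) (by decide) (by norm_num) (by norm_num) (by norm_num)

theorem g18 : Base 18 :=
  base_of 18 633027375877082295945150 (53033 / 12500) (4242641 / 1000000) (1197 / 1000) (907 / 1250) (by norm_num) (by norm_num) (by norm_num)
    (Or.inr (by norm_num)) (Or.inr (by norm_num)) (by decide) (by norm_num) (by norm_num) (by norm_num)

theorem g19 : Base 19 :=
  base_of 19 650373803353231959269860 (2179449 / 500000) (4358899 / 1000000) (59143 / 50000) (72403 / 100000) (by norm_num) (by norm_num) (by norm_num)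
    (Or.inr (by norm_num)) (Or.inr (by norm_num)) (by decide) (by norm_num) (by norm_num) (by norm_num)

theorem g20 : Base 20 :=
  base_of 20 667269443003702992378684 (894427 / 200000) (559017 / 125000) (116979 / 100000) (72257 / 100000) (by norm_num) (by norm_num) (by norm_num)
    (Or.inr (by norm_num)) (Or.inr (by norm_num)) (by decide) (by norm_num) (by norm_num) (by norm_num)

theorem g22 : Base 22 :=
  base_of 22 699838095935852323158046 (938083 / 200000) (293151 / 62500) (114637 / 100000) (71997 / 100000) (by norm_num) (by norm_num) (by norm_num)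
    (Or.inr (by norm_num)) (Or.inr (by norm_num)) (by decide) (by norm_num) (by norm_num) (by norm_num)

theorem g23 : Base 23 :=
  base_of 23 715566758591707389950052 (4795831 / 1000000) (599479 / 125000) (113583 / 100000) (1797 / 2500) (by norm_num) (by norm_num) (by norm_num)
    (Or.inr (by norm_num)) (Or.inr (by norm_num)) (by decide) (by norm_num) (by norm_num) (by norm_num)

theorem g24 : Base 24 :=
  base_of 24 730957051734071749209964 (4898979 / 1000000) (244949 / 50000) (22519 / 20000) (7177 / 10000) (by norm_num) (by norm_num) (by norm_num)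
    (Or.inr (by norm_num)) (Or.inr (by norm_num)) (by decide) (by norm_num) (by norm_num) (by norm_num)

theorem g26 : Base 26 :=
  base_of 26 760804220832412080027762 (5099019 / 1000000) (254951 / 50000) (110793 / 100000) (7157 / 10000) (by norm_num) (by norm_num) (by norm_num)
    (Or.inr (by norm_num)) (Or.inr (by norm_num)) (by decide) (by norm_num) (by norm_num) (by norm_num)

theorem g27 : Base 27 :=
  base_of 27 775297032055932256576842 (649519 / 125000) (5196153 / 1000000) (6873 / 6250) (35739 / 50000) (by norm_num) (by norm_num) (by norm_num)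
    (Or.inr (by norm_num)) (Or.inr (by norm_num)) (by decide) (by norm_num) (by norm_num) (by norm_num)

theorem g28 : Base 28 :=
  base_of 28 789523852326869761717254 (2645751 / 500000) (5291503 / 1000000) (27297 / 25000) (2231 / 3125) (by norm_num) (by norm_num) (by norm_num)
    (Or.inr (by norm_num)) (Or.inr (by norm_num)) (by decide) (by norm_num) (by norm_num) (by norm_num)

theorem g29 : Base 29 :=
  base_of 29 803498810746714455066906 (1346291 / 250000) (1077033 / 200000) (108449 / 100000) (7131 / 10000) (by norm_num) (by norm_num) (by norm_num)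
    (Or.inr (by norm_num)) (Or.inr (by norm_num)) (by decide) (by norm_num) (by norm_num) (by norm_num)

theorem g30 : Base 30 :=
  base_of 30 817234828155107480601546 (219089 / 40000) (2738613 / 500000) (53873 / 50000) (2226 / 3125) (by norm_num) (by norm_num) (by norm_num)
    (Or.inr (by norm_num)) (Or.inr (by norm_num)) (by decide) (by norm_num) (by norm_num) (by norm_num)

theorem g31 : Base 31 :=
  base_of 31 830743757020196725535960 (1391941 / 250000) (1113553 / 200000) (53539 / 50000) (71157 / 100000) (by norm_num) (by norm_num) (by norm_num)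
    (Or.inr (by norm_num)) (Or.inr (by norm_num)) (by decide) (by norm_num) (by norm_num) (by norm_num)

theorem g32 : Base 32 :=
  base_of 32 844036501169443061260200 (2828427 / 500000) (1131371 / 200000) (53221 / 50000) (71087 / 100000) (by norm_num) (by norm_num) (by norm_num)
    (Or.inr (by norm_num)) (Or.inr (by norm_num)) (by decide) (by norm_num) (by norm_num) (by norm_num)

theorem g33 : Base 33 :=
  base_of 33 857123118801890012311776 (2872281 / 500000) (5744563 / 1000000) (21167 / 20000) (71019 / 100000) (by norm_num) (by norm_num) (by norm_num)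
    (Or.inr (by norm_num)) (Or.inr (by norm_num)) (by decide) (by norm_num) (by norm_num) (by norm_num)

theorem g34 : Base 34 :=
  base_of 34 870012911549594453345202 (5830951 / 1000000) (728869 / 125000) (52627 / 50000) (14191 / 20000) (by norm_num) (by norm_num) (by norm_num)
    (Or.inr (by norm_num)) (Or.inr (by norm_num)) (by decide) (by norm_num) (by norm_num) (by norm_num)

theorem g35 : Base 35 :=
  base_of 35 882714501830193148643910 (5916079 / 1000000) (73951 / 12500) (104699 / 100000) (70893 / 100000) (by norm_num) (by norm_num) (by norm_num)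
    (Or.inr (by norm_num)) (Or.inr (by norm_num)) (by decide) (by norm_num) (by norm_num) (by norm_num)

theorem base {n : ℕ} (hn : n ∈ LL) : Base n := by
  simp only [LL, mem_insert, mem_singleton] at hn
  rcases hn with rfl | rfl | rfl | rfl | rfl | rfl | rfl | rfl | rfl | rfl | rfl | rfl | rfl | rfl | rfl |
    rfl | rfl | rfl | rfl | rfl | rfl | rfl
  · exact g10
  · exact g11
  · exact g12
  · exact g14
  · exact g15
  · exact g17
  · exact g18
  · exact g19
  · exact g20
  · exact g22
  · exact g23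
  · exact g24
  · exact g26
  · exact g27
  · exact g28
  · exact g29
  · exact g30
  · exact g31
  · exact g32
  · exact g33
  · exact g34
  · exact g35

/-- the multiplicities `m0 + k`, `k √n` close to an integer -/
theorem win_of {n : ℕ} (hn : n ∈ LL) {k : ℕ} {f : ℤ} (hk : |(k : ℝ) * √(n : ℝ) - f| < 1 / 241) :
    Win n (m0 + k) := by
  obtain ⟨e, he, h1, h2⟩ := base hn
  obtain ⟨k1, k2⟩ := abs_lt.1 hk
  have hx : √(n : ℝ) * (2 * ((m0 + k : ℕ) : ℝ) + 1) =
      √(n : ℝ) * (2 * (m0 : ℝ) + 1) + 2 * ((k : ℝ) * √(n : ℝ)) := by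
    push_cast
    ring
  intro d
  rw [hx]
  have hd : (2 * (d : ℤ) + 3 ≤ e + 2 * f - 1) ∨ (e + 2 * f + 1 ≤ 2 * (d : ℤ) + 3) := by
    obtain ⟨g, hg⟩ := he
    omega
  rcases hd with hd | hd
  · left
    have hd' : (2 * (d : ℝ) + 3 ≤ e + 2 * f - 1) := by exact_mod_cast hd
    linarith
  · right
    have hd' : (e + 2 * f + 1 ≤ 2 * (d : ℝ) + 3) := by exact_mod_cast hd
    linarith

/-- the box of `k` -/
noncomputable def box (k : ℕ) : LL → Fin 241 := fun n =>
  ⟨⌊241 * Int.fract ((k : ℝ) * √((n : ℕ) : ℝ))⌋₊, by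
    have h1 := Int.fract_lt_one ((k : ℝ) * √((n : ℕ) : ℝ))
    have h0 := Int.fract_nonneg ((k : ℝ) * √((n : ℕ) : ℝ))
    rw [Nat.floor_lt (by positivity)]
    push_cast
    linarith⟩

theorem close_of_box {k k' : ℕ} (hkk : k ≤ k') (h : box k = box k') {n : ℕ} (hn : n ∈ LL) :
    ∃ f : ℤ, |((k' - k : ℕ) : ℝ) * √(n : ℝ) - f| < 1 / 241 := by
  have h1 := congrArg Fin.val (congrFun h ⟨n, hn⟩)
  simp only [box] at h1
  set x := (k : ℝ) * √(n : ℝ) with hx
  set y := (k' : ℝ) * √(n : ℝ) with hy
  have hx0 := Int.fract_nonneg x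
  have hy0 := Int.fract_nonneg y
  have a1 := Nat.floor_le (show 0 ≤ 241 * Int.fract x by positivity)
  have a2 := Nat.lt_floor_add_one (241 * Int.fract x)
  have b1 := Nat.floor_le (show 0 ≤ 241 * Int.fract y by positivity)
  have b2 := Nat.lt_floor_add_one (241 * Int.fract y)
  rw [← h1] at b1 b2
  refine ⟨⌊y⌋ - ⌊x⌋, ?_⟩
  have e1 : ((k' - k : ℕ) : ℝ) * √(n : ℝ) - ((⌊y⌋ - ⌊x⌋ : ℤ) : ℝ) = Int.fract y - Int.fract x := by
    rw [Nat.cast_sub hkk]
    push_cast
    unfold Int.fract
    rw [hx, hy]
    ring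
  rw [e1, abs_lt]
  constructor
  · linarith
  · linarith

/-- every long interval contains a number with the same box as a given small number -/
theorem exists_repr : ∃ G : ℕ, ∀ k : ℕ, ∃ k' ≤ G, box k' = box k := by
  classical
  choose! g hg using fun (y : LL → Fin 241) (h : ∃ k, box k = y) => h
  obtain ⟨G, hG⟩ := (Set.finite_range g).bddAbove
  exact ⟨G, fun k => ⟨g (box k), hG ⟨box k, rfl⟩, hg (box k) ⟨k, rfl⟩⟩⟩

/-- **Bounded gaps.** There is a `G` such that every interval of length `G` contains a multiplicity `m` which is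
outside of all the windows. -/
theorem syndetic : ∃ G : ℕ, ∀ N : ℕ, ∃ m : ℕ, N ≤ m ∧ m < N + G ∧ 1 ≤ m ∧ ∀ n ∈ LL, Win n m := by
  obtain ⟨G, hG⟩ := exists_repr
  refine ⟨m0 + G + 1, fun N => ?_⟩
  obtain ⟨k', hk', hb⟩ := hG (N + G)
  have hle : k' ≤ N + G := by omega
  refine ⟨m0 + (N + G - k'), by omega, by omega, ?_, fun n hn => ?_⟩
  · have : 1 ≤ m0 := by unfold m0; norm_num
    omega
  · obtain ⟨f, hf⟩ := close_of_box hle hb hn
    exact win_of hn hf

end Pool.Agent.Q241.FP
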